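import Pool.Agent.Helper16.OddPack.Cells

/-!
# A graph drawn in the plane is a minor of a finite grid
-/

set_option autoImplicit false

namespace Pool.Agent.Helper16.OddPack

theorem gridMinor_of_topPlanar (V : Type) [Fintype V] (G : SimpleGraph V)
    (h : TopPlanar G) : GridMinor G := by
  classical
  obtain ⟨f, hf, γ, hγ1, hγ2, hγ3⟩ := h
  -- orientation of the edges
  have horient : ∀ e : G.edgeSet, ∃ p : V × V, s(p.1, p.2) = e.1 ∧ G.Adj p.1 p.2 := by
    rintro ⟨e, he⟩
    induction e using Sym2.ind with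
    | _ x y => exact ⟨(x, y), rfl, he⟩
  choose p hp1 hp2 using horient
  let a : G.edgeSet → V := fun e => (p e).1
  let b : G.edgeSet → V := fun e => (p e).2
  have hadj : ∀ e, G.Adj (a e) (b e) := fun e => hp2 e
  have hs : ∀ e, s(a e, b e) = e.1 := fun e => hp1 e
  let g : ∀ e : G.edgeSet, Path (f (a e)) (f (b e)) := fun e => γ (a e) (b e)
  -- no vertex other than the ends lies on an arc
  have hfg : ∀ (e : G.edgeSet) (w : V), w ≠ a e → w ≠ b e → ∀ t, g e t ≠ f w := by
    intro e w hwa hwb t ht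
    by_cases h0 : t = 0
    · subst h0
      rw [Path.source] at ht
      exact hwa (hf ht).symm
    · by_cases h1 : t = 1
      · subst h1
        rw [Path.target] at ht
        exact hwb (hf ht).symm
      · refine hγ2 _ _ (hadj e) t ⟨?_, ?_⟩ w ht
        · exact lt_of_le_of_ne t.2.1 (fun h => h0 (Subtype.ext h.symm))
        · exact lt_of_le_of_ne t.2.2 (fun h => h1 (Subtype.ext h))
  -- the gap between points and arcs
  let K : V ⊕ G.edgeSet → Set (ℝ × ℝ) := Sum.elim (fun v => {f v}) (fun e => Set.range (g e))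
  have hKc : ∀ i, IsCompact (K i) := by
    rintro (v | e)
    · exact isCompact_singleton
    · exact isCompact_range (g e).continuous
  obtain ⟨δ, hδ, hgap⟩ := exists_gap K hKc
  have hff : ∀ v w, v ≠ w → δ ≤ dist (f v) (f w) := by
    intro v w hvw
    refine hgap (Sum.inl v) (Sum.inl w) ?_ _ rfl _ rfl
    show Disjoint ({f v} : Set (ℝ × ℝ)) {f w}
    rw [Set.disjoint_singleton]
    exact fun h => hvw (hf h)
  have hgf : ∀ e w, w ≠ a e → w ≠ b e → ∀ t, δ ≤ dist (g e t) (f w) := by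
    intro e w hwa hwb t
    refine hgap (Sum.inr e) (Sum.inl w) ?_ _ ⟨t, rfl⟩ _ rfl
    show Disjoint (Set.range (g e)) ({f w} : Set (ℝ × ℝ))
    rw [Set.disjoint_singleton_right]
    rintro ⟨t, ht⟩
    exact hfg e w hwa hwb t ht
  set r : ℝ := δ / 3 with hr
  have hrpos : 0 < r := by positivity
  -- parameters
  have ht0 : ∀ e : G.edgeSet, ∃ t0 : unitInterval, 0 < (t0 : ℝ) ∧ (t0 : ℝ) ≤ 1 / 2 ∧
      dist (g e t0) (f (a e)) ≤ r := by
    intro e
    have hc := Metric.continuous_iff.1 (g e).continuous 0 r hrpos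
    obtain ⟨η, hη, h⟩ := hc
    have hm : 0 < min (η / 2) (1 / 2) := by positivity
    have hm1 : min (η / 2) (1 / 2) ≤ 1 / 2 := min_le_right _ _
    refine ⟨⟨min (η / 2) (1 / 2), hm.le, by linarith⟩, hm, hm1, ?_⟩
    have := h ⟨min (η / 2) (1 / 2), hm.le, by linarith⟩ (by
      rw [Subtype.dist_eq, Real.dist_eq]
      show |min (η / 2) (1 / 2) - (0 : ℝ)| < η
      rw [sub_zero, abs_of_pos hm]
      have : min (η / 2) (1 / 2) ≤ η / 2 := min_le_left _ _
      linarith)
    rw [Path.source] at this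
    exact this.le
  have ht1 : ∀ e : G.edgeSet, ∃ t1 : unitInterval, 1 / 2 ≤ (t1 : ℝ) ∧ (t1 : ℝ) < 1 ∧
      dist (g e t1) (f (b e)) ≤ r := by
    intro e
    have hc := Metric.continuous_iff.1 (g e).continuous 1 r hrpos
    obtain ⟨η, hη, h⟩ := hc
    have hm : 0 < min (η / 2) (1 / 2) := by positivity
    have hm1 : min (η / 2) (1 / 2) ≤ 1 / 2 := min_le_right _ _
    refine ⟨⟨1 - min (η / 2) (1 / 2), by linarith, by linarith⟩, ?_, ?_, ?_⟩
    · show 1 / 2 ≤ 1 - min (η / 2) (1 / 2)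
      linarith
    · show 1 - min (η / 2) (1 / 2) < 1
      linarith
    · have := h ⟨1 - min (η / 2) (1 / 2), by linarith, by linarith⟩ (by
        rw [Subtype.dist_eq, Real.dist_eq]
        show |1 - min (η / 2) (1 / 2) - (1 : ℝ)| < η
        have h2 : min (η / 2) (1 / 2) ≤ η / 2 := min_le_left _ _
        rw [abs_lt]
        constructor <;> linarith)
      rw [Path.target] at this
      exact this.le
  choose t0 ht0a ht0b ht0c using ht0
  choose t1 ht1a ht1b ht1c using ht1
  let D : V → Set (ℝ × ℝ) := fun v => Metric.closedBall (f v) r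
  let A : G.edgeSet → Set (ℝ × ℝ) := fun e => (g e) '' Set.Icc (t0 e) (t1 e)
  have hle : ∀ e, t0 e ≤ t1 e := fun e => by
    show ((t0 e : ℝ)) ≤ (t1 e : ℝ)
    exact (ht0b e).trans (ht1a e)
  obtain ⟨n, B, h1, h2, h3, h4, h5⟩ := grid_model a b (fun e => (hadj e).ne) D A
    (fun v => isCompact_closedBall _ _)
    (fun e => isCompact_Icc.image (g e).continuous)
    (fun v => (convex_closedBall (f v) r).isPreconnected)
    (fun e => isPreconnected_Icc.image _ (g e).continuous.continuousOn)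
    (fun v => ⟨f v, Metric.mem_closedBall_self hrpos.le⟩)
    (by
      intro v w hvw
      rw [Set.disjoint_left]
      intro x hx hy
      have h1 := hff v w hvw
      have h2 := dist_triangle (f v) x (f w)
      rw [Metric.mem_closedBall, dist_comm] at hx
      rw [Metric.mem_closedBall] at hy
      linarith)
    (by
      intro e e' hee
      rw [Set.disjoint_left]
      rintro x ⟨t, ht, rfl⟩ ⟨t', ht', heq⟩
      refine hγ3 _ _ _ _ (hadj e') (hadj e) ?_ t' t ⟨?_, ?_⟩ ⟨?_, ?_⟩ heq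
      · rw [hs, hs]
        exact fun h => hee (Subtype.ext h.symm)
      · exact lt_of_lt_of_le (ht0a e') ht'.1
      · exact lt_of_le_of_lt (show (t' : ℝ) ≤ t1 e' from ht'.2) (ht1b e')
      · exact lt_of_lt_of_le (ht0a e) ht.1
      · exact lt_of_le_of_lt (show (t : ℝ) ≤ t1 e from ht.2) (ht1b e))
    (by
      intro e w hwa hwb
      rw [Set.disjoint_left]
      rintro x ⟨t, -, rfl⟩ hx
      have h1 := hgf e w hwa hwb t
      rw [Metric.mem_closedBall] at hx
      linarith)
    (fun e => ⟨g e (t0 e), ⟨t0 e, Set.left_mem_Icc.2 (hle e), rfl⟩, ht0c e⟩)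
    (fun e => ⟨g e (t1 e), ⟨t1 e, Set.right_mem_Icc.2 (hle e), rfl⟩, ht1c e⟩)
  refine ⟨n, B, h1, h2, h3, h4, ?_⟩
  intro u v huv
  obtain ⟨p, hp, q, hq, hpq⟩ := h5 ⟨s(u, v), huv⟩
  have h6 := hs ⟨s(u, v), huv⟩
  rw [Sym2.eq_iff] at h6
  rcases h6 with ⟨e1, e2⟩ | ⟨e1, e2⟩
  · rw [e1] at hp
    rw [e2] at hq
    exact ⟨p, hp, q, hq, hpq⟩
  · rw [e1] at hp
    rw [e2] at hq
    exact ⟨q, hq, p, hp, gridAdj_symm hpq⟩

end Pool.Agent.Helper16.OddPack
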