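import Pool.Agent.Helper16.OddPack.Defs

/-!
# From disjoint compact connected sets in the plane to branch sets in a grid
-/

set_option autoImplicit false

namespace Pool.Agent.Helper16.OddPack

open Relation

theorem gridAdj_symm {p q : ℕ × ℕ} (h : GridAdj p q) : GridAdj q p := by
  unfold GridAdj at h ⊢
  omega

/-- the closed cell with index `c`, mesh `ε`, offset `R` -/
def cell (ε R : ℝ) (c : ℕ × ℕ) : Set (ℝ × ℝ) :=
  {p | ((c.1 : ℝ) * ε ≤ p.1 + R ∧ p.1 + R ≤ ((c.1 : ℝ) + 1) * ε) ∧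
    ((c.2 : ℝ) * ε ≤ p.2 + R ∧ p.2 + R ≤ ((c.2 : ℝ) + 1) * ε)}

theorem isClosed_cell (ε R : ℝ) (c : ℕ × ℕ) : IsClosed (cell ε R c) := by
  unfold cell
  refine (IsClosed.inter ?_ ?_).inter (IsClosed.inter ?_ ?_)
  · exact isClosed_le continuous_const (continuous_fst.add continuous_const)
  · exact isClosed_le (continuous_fst.add continuous_const) continuous_const
  · exact isClosed_le continuous_const (continuous_snd.add continuous_const)
  · exact isClosed_le (continuous_snd.add continuous_const) continuous_const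

theorem dist_cell {ε R : ℝ} {c : ℕ × ℕ} {x y : ℝ × ℝ} (hx : x ∈ cell ε R c)
    (hy : y ∈ cell ε R c) : dist x y ≤ ε := by
  obtain ⟨⟨h1, h2⟩, h3, h4⟩ := hx
  obtain ⟨⟨h5, h6⟩, h7, h8⟩ := hy
  rw [Prod.dist_eq, max_le_iff, Real.dist_eq, Real.dist_eq, abs_le, abs_le]
  refine ⟨⟨?_, ?_⟩, ?_, ?_⟩ <;> nlinarith

theorem exists_cell {ε R : ℝ} (hε : 0 < ε) {x : ℝ × ℝ} (h1 : |x.1| ≤ R) (h2 : |x.2| ≤ R) :
    ∃ c, x ∈ cell ε R c := by
  have a1 : 0 ≤ (x.1 + R) / ε := by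
    apply div_nonneg _ hε.le
    linarith [(abs_le.1 h1).1]
  have a2 : 0 ≤ (x.2 + R) / ε := by
    apply div_nonneg _ hε.le
    linarith [(abs_le.1 h2).1]
  refine ⟨(⌊(x.1 + R) / ε⌋₊, ⌊(x.2 + R) / ε⌋₊), ⟨?_, ?_⟩, ?_, ?_⟩
  · have := Nat.floor_le a1
    rwa [le_div_iff₀ hε] at this
  · have := (Nat.lt_floor_add_one ((x.1 + R) / ε)).le
    rwa [div_le_iff₀ hε] at this
  · have := Nat.floor_le a2
    rwa [le_div_iff₀ hε] at this
  · have := (Nat.lt_floor_add_one ((x.2 + R) / ε)).le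
    rwa [div_le_iff₀ hε] at this

def cells (ε R : ℝ) (K : Set (ℝ × ℝ)) : Set (ℕ × ℕ) := {c | (cell ε R c ∩ K).Nonempty}

theorem cells_bound {ε R : ℝ} (hε : 0 < ε) {K : Set (ℝ × ℝ)}
    (hK : ∀ x ∈ K, |x.1| ≤ R ∧ |x.2| ≤ R) {c : ℕ × ℕ} (hc : c ∈ cells ε R K) :
    c.1 < ⌊2 * R / ε⌋₊ + 1 ∧ c.2 < ⌊2 * R / ε⌋₊ + 1 := by
  obtain ⟨x, ⟨⟨h1, -⟩, h3, -⟩, hx⟩ := hc
  obtain ⟨h5, h6⟩ := hK x hx
  constructor
  · rw [Nat.lt_add_one_iff]
    apply Nat.le_floor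
    rw [le_div_iff₀ hε]
    linarith [(abs_le.1 h5).2]
  · rw [Nat.lt_add_one_iff]
    apply Nat.le_floor
    rw [le_div_iff₀ hε]
    linarith [(abs_le.1 h6).2]

def cstep (C : Set (ℕ × ℕ)) (a b : ℕ × ℕ) : Prop := a ∈ C ∧ b ∈ C ∧ GridAdj a b

theorem cells_connected {ε R : ℝ} (hε : 0 < ε) {K : Set (ℝ × ℝ)}
    (hK : ∀ x ∈ K, |x.1| ≤ R ∧ |x.2| ≤ R) (hconn : IsPreconnected K) :
    ∀ c ∈ cells ε R K, ∀ c' ∈ cells ε R K, ReflTransGen (cstep (cells ε R K)) c c' := by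
  intro c hc c' hc'
  by_contra hno
  have hfin : (cells ε R K).Finite := by
    apply Set.Finite.subset ((Set.finite_Iio (⌊2 * R / ε⌋₊ + 1)).prod
      (Set.finite_Iio (⌊2 * R / ε⌋₊ + 1)))
    intro d hd
    exact cells_bound hε hK hd
  set S : Set (ℕ × ℕ) := {d | d ∈ cells ε R K ∧ ReflTransGen (cstep (cells ε R K)) c d} with hS
  set T : Set (ℕ × ℕ) := {d | d ∈ cells ε R K ∧ ¬ ReflTransGen (cstep (cells ε R K)) c d} with hT
  have hSf : S.Finite := hfin.subset fun d hd => hd.1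
  have hTf : T.Finite := hfin.subset fun d hd => hd.1
  have hX : IsClosed (⋃ d ∈ S, cell ε R d) := hSf.isClosed_biUnion fun d _ => isClosed_cell ε R d
  have hY : IsClosed (⋃ d ∈ T, cell ε R d) := hTf.isClosed_biUnion fun d _ => isClosed_cell ε R d
  have hsub : K ⊆ (⋃ d ∈ S, cell ε R d) ∪ ⋃ d ∈ T, cell ε R d := by
    intro x hx
    obtain ⟨d, hd⟩ := exists_cell hε (hK x hx).1 (hK x hx).2
    have hdK : d ∈ cells ε R K := ⟨x, hd, hx⟩
    by_cases hr : ReflTransGen (cstep (cells ε R K)) c d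
    · left
      exact Set.mem_biUnion (show d ∈ S from ⟨hdK, hr⟩) hd
    · right
      exact Set.mem_biUnion (show d ∈ T from ⟨hdK, hr⟩) hd
  have h1 : (K ∩ ⋃ d ∈ S, cell ε R d).Nonempty := by
    obtain ⟨x, hx, hxK⟩ := hc
    exact ⟨x, hxK, Set.mem_biUnion (show c ∈ S from ⟨⟨x, hx, hxK⟩, ReflTransGen.refl⟩) hx⟩
  have h2 : (K ∩ ⋃ d ∈ T, cell ε R d).Nonempty := by
    obtain ⟨x, hx, hxK⟩ := hc'
    exact ⟨x, hxK, Set.mem_biUnion (show c' ∈ T from ⟨⟨x, hx, hxK⟩, hno⟩) hx⟩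
  obtain ⟨z, hzK, hzX, hzY⟩ := isPreconnected_closed_iff.1 hconn _ _ hX hY hsub h1 h2
  simp only [Set.mem_iUnion, exists_prop] at hzX hzY
  obtain ⟨s, ⟨hsK, hsr⟩, hzs⟩ := hzX
  obtain ⟨t, ⟨htK, htr⟩, hzt⟩ := hzY
  -- indices differ by at most one
  have near : ∀ (m n : ℕ) (x : ℝ), (m : ℝ) * ε ≤ x → x ≤ ((n : ℝ) + 1) * ε → m ≤ n + 1 := by
    intro m n x h3 h4
    have : (m : ℝ) * ε ≤ ((n : ℝ) + 1) * ε := h3.trans h4
    have h5 : (m : ℝ) ≤ (n : ℝ) + 1 := le_of_mul_le_mul_right this hε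
    exact_mod_cast h5
  have n1 := near s.1 t.1 _ hzs.1.1 hzt.1.2
  have n2 := near t.1 s.1 _ hzt.1.1 hzs.1.2
  have n3 := near s.2 t.2 _ hzs.2.1 hzt.2.2
  have n4 := near t.2 s.2 _ hzt.2.1 hzs.2.2
  have hmK : (s.1, t.2) ∈ cells ε R K := ⟨z, ⟨hzs.1, hzt.2⟩, hzK⟩
  apply htr
  have r1 : ReflTransGen (cstep (cells ε R K)) s (s.1, t.2) := by
    by_cases h : s.2 = t.2
    · rw [← h]
    · apply ReflTransGen.single
      refine ⟨hsK, hmK, Or.inl ⟨rfl, ?_⟩⟩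
      simp only []
      omega
  have r2 : ReflTransGen (cstep (cells ε R K)) (s.1, t.2) t := by
    by_cases h : s.1 = t.1
    · rw [h]
    · apply ReflTransGen.single
      refine ⟨hmK, htK, Or.inr ⟨rfl, ?_⟩⟩
      simp only []
      omega
  exact (hsr.trans r1).trans r2

/-- uniform gap between disjoint members of a finite family of compact sets -/
theorem exists_gap {ι : Type} [Finite ι] (K : ι → Set (ℝ × ℝ)) (hK : ∀ i, IsCompact (K i)) :
    ∃ δ > 0, ∀ i j, Disjoint (K i) (K j) → ∀ x ∈ K i, ∀ y ∈ K j, δ ≤ dist x y := by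
  classical
  have h : ∀ p : ι × ι, ∃ δ > 0, Disjoint (K p.1) (K p.2) →
      ∀ x ∈ K p.1, ∀ y ∈ K p.2, δ ≤ dist x y := by
    rintro ⟨i, j⟩
    by_cases hd : Disjoint (K i) (K j)
    · obtain ⟨δ, hδ, h⟩ := hd.exists_thickenings (hK i) (hK j).isClosed
      refine ⟨δ, hδ, fun _ x hx y hy => ?_⟩
      by_contra hlt
      push Not at hlt
      have m1 : y ∈ Metric.thickening δ (K i) := by
        rw [Metric.mem_thickening_iff]
        exact ⟨x, hx, by rwa [dist_comm]⟩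
      have m2 : y ∈ Metric.thickening δ (K j) := Metric.self_subset_thickening hδ (K j) hy
      exact Set.disjoint_left.1 h m1 m2
    · exact ⟨1, one_pos, fun h => absurd h hd⟩
  choose δ hδ h using h
  rcases isEmpty_or_nonempty (ι × ι) with he | hne
  · refine ⟨1, one_pos, fun i j => ?_⟩
    exact (he.false (i, j)).elim
  · obtain ⟨p, hp⟩ := Finite.exists_min δ
    refine ⟨δ p, hδ p, fun i j hd x hx y hy => ?_⟩
    exact (hp (i, j)).trans (h (i, j) hd x hx y hy)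

/-- **From a planar configuration of compact connected sets to a grid minor.** -/
theorem grid_model {V E : Type} [Finite V] [Finite E] (a b : E → V) (hab : ∀ e, a e ≠ b e)
    (D : V → Set (ℝ × ℝ)) (A : E → Set (ℝ × ℝ)) (hDc : ∀ v, IsCompact (D v))
    (hAc : ∀ e, IsCompact (A e)) (hDp : ∀ v, IsPreconnected (D v))
    (hAp : ∀ e, IsPreconnected (A e)) (hDne : ∀ v, (D v).Nonempty)
    (hDD : ∀ v w, v ≠ w → Disjoint (D v) (D w)) (hAA : ∀ e e', e ≠ e' → Disjoint (A e) (A e'))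
    (hAD : ∀ e w, w ≠ a e → w ≠ b e → Disjoint (A e) (D w))
    (hAa : ∀ e, (A e ∩ D (a e)).Nonempty) (hAb : ∀ e, (A e ∩ D (b e)).Nonempty) :
    ∃ (n : ℕ) (B : V → Set (ℕ × ℕ)),
      (∀ v, ∀ p ∈ B v, p.1 < n ∧ p.2 < n) ∧
      (∀ v, (B v).Nonempty) ∧
      (∀ v, ∀ p ∈ B v, ∀ q ∈ B v, ReflTransGen (fun x y => x ∈ B v ∧ y ∈ B v ∧ GridAdj x y) p q) ∧
      (∀ u v, u ≠ v → Disjoint (B u) (B v)) ∧
      (∀ e, ∃ p ∈ B (a e), ∃ q ∈ B (b e), GridAdj p q) := by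
  let K : V ⊕ E → Set (ℝ × ℝ) := Sum.elim D A
  have hKc : ∀ i, IsCompact (K i) := by
    rintro (v | e)
    · exact hDc v
    · exact hAc e
  obtain ⟨δ, hδ, hgap⟩ := exists_gap K hKc
  obtain ⟨R, hR⟩ : ∃ R : ℝ, ∀ i, ∀ x ∈ K i, |x.1| ≤ R ∧ |x.2| ≤ R := by
    have hb : Bornology.IsBounded (⋃ i, K i) := (isCompact_iUnion hKc).isBounded
    obtain ⟨R, hR⟩ := hb.subset_closedBall 0
    refine ⟨R, fun i x hx => ?_⟩
    have h1 := hR (Set.mem_iUnion.2 ⟨i, hx⟩)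
    rw [mem_closedBall_zero_iff] at h1
    exact ⟨(norm_fst_le x).trans h1, (norm_snd_le x).trans h1⟩
  set ε : ℝ := δ / 2 with hεd
  have hε : 0 < ε := by positivity
  have hdisj : ∀ i j, Disjoint (K i) (K j) → Disjoint (cells ε R (K i)) (cells ε R (K j)) := by
    intro i j hij
    rw [Set.disjoint_left]
    rintro c ⟨x, hxc, hx⟩ ⟨y, hyc, hy⟩
    have h1 := dist_cell hxc hyc
    have h2 := hgap i j hij x hx y hy
    linarith
  have hconn : ∀ i, (IsPreconnected (K i)) → ∀ c ∈ cells ε R (K i), ∀ c' ∈ cells ε R (K i),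
      ReflTransGen (cstep (cells ε R (K i))) c c' :=
    fun i hi => cells_connected hε (hR i) hi
  let B0 : V → Set (ℕ × ℕ) := fun v => cells ε R (D v)
  let P : E → Set (ℕ × ℕ) := fun e => cells ε R (A e)
  have hB0 : ∀ v w, v ≠ w → Disjoint (B0 v) (B0 w) := fun v w hvw =>
    hdisj (Sum.inl v) (Sum.inl w) (hDD v w hvw)
  have hPP : ∀ e e', e ≠ e' → Disjoint (P e) (P e') := fun e e' h =>
    hdisj (Sum.inr e) (Sum.inr e') (hAA e e' h)
  have hPB : ∀ e w, w ≠ a e → w ≠ b e → Disjoint (P e) (B0 w) := fun e w h1 h2 =>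
    hdisj (Sum.inr e) (Sum.inl w) (hAD e w h1 h2)
  let Q : E → Set (ℕ × ℕ) := fun e =>
    {c | ∃ c0, c0 ∈ P e ∧ c0 ∈ B0 (a e) ∧ ReflTransGen (cstep (P e \ B0 (b e))) c0 c}
  have hQP : ∀ e, ∀ c ∈ Q e, c ∈ P e ∧ c ∉ B0 (b e) := by
    rintro e c ⟨c0, h1, h2, h3⟩
    induction h3 with
    | refl => exact ⟨h1, Set.disjoint_left.1 (hB0 _ _ (hab e)) h2⟩
    | tail _ h5 _ => exact h5.2.1
  let B : V → Set (ℕ × ℕ) := fun v => B0 v ∪ {c | ∃ e, a e = v ∧ c ∈ Q e}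
  have hne : ∀ i, (K i).Nonempty → (cells ε R (K i)).Nonempty := by
    rintro i ⟨x, hx⟩
    obtain ⟨c, hc⟩ := exists_cell hε (hR i x hx).1 (hR i x hx).2
    exact ⟨c, x, hc, hx⟩
  refine ⟨⌊2 * R / ε⌋₊ + 1, B, ?_, ?_, ?_, ?_, ?_⟩
  · rintro v p (hp | ⟨e, -, hp⟩)
    · exact cells_bound hε (hR (Sum.inl v)) hp
    · exact cells_bound hε (hR (Sum.inr e)) (hQP e p hp).1
  · intro v
    exact (hne (Sum.inl v) (hDne v)).mono Set.subset_union_left
  · intro v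
    have hsymm : ∀ p q, ReflTransGen (cstep (B v)) p q → ReflTransGen (cstep (B v)) q p := by
      intro p q h
      induction h with
      | refl => exact ReflTransGen.refl
      | tail _ h5 ih =>
        exact (ReflTransGen.single ⟨h5.2.1, h5.1, gridAdj_symm h5.2.2⟩).trans ih
    have hB0c : ∀ p ∈ B0 v, ∀ q ∈ B0 v, ReflTransGen (cstep (B v)) p q := by
      intro p hp q hq
      have := hconn (Sum.inl v) (hDp v) p hp q hq
      clear hq
      induction this with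
      | refl => exact ReflTransGen.refl
      | tail _ h5 ih => exact ih.tail ⟨Or.inl h5.1, Or.inl h5.2.1, h5.2.2⟩
    have hbase : ∀ p ∈ B v, ∃ c0 ∈ B0 v, ReflTransGen (cstep (B v)) c0 p := by
      rintro p (hp | ⟨e, he, c0, h1, h2, h3⟩)
      · exact ⟨p, hp, ReflTransGen.refl⟩
      · refine ⟨c0, by rw [← he]; exact h2, ?_⟩
        have key : ∀ c, ReflTransGen (cstep (P e \ B0 (b e))) c0 c →
            ReflTransGen (cstep (B v)) c0 c ∧ c ∈ Q e := by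
          intro c hc
          induction hc with
          | refl => exact ⟨ReflTransGen.refl, c0, h1, h2, ReflTransGen.refl⟩
          | @tail x y hx hxy ih =>
            have hyQ : y ∈ Q e := by
              obtain ⟨c1, g1, g2, g3⟩ := ih.2
              exact ⟨c1, g1, g2, g3.tail hxy⟩
            exact ⟨ih.1.tail ⟨Or.inr ⟨e, he, ih.2⟩, Or.inr ⟨e, he, hyQ⟩, hxy.2.2⟩, hyQ⟩
        exact (key p h3).1
    intro p hp q hq
    obtain ⟨c0, hc0, h1⟩ := hbase p hp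
    obtain ⟨c1, hc1, h2⟩ := hbase q hq
    exact ((hsymm _ _ h1).trans (hB0c c0 hc0 c1 hc1)).trans h2
  · intro u v huv
    rw [Set.disjoint_left]
    rintro c (hc | ⟨e, he, hc⟩) (hc' | ⟨e', he', hc'⟩)
    · exact Set.disjoint_left.1 (hB0 u v huv) hc hc'
    · obtain ⟨h1, h2⟩ := hQP e' c hc'
      by_cases hub : u = b e'
      · rw [hub] at hc; exact h2 hc
      · exact Set.disjoint_left.1 (hPB e' u (by rw [he']; exact huv) hub) h1 hc
    · obtain ⟨h1, h2⟩ := hQP e c hc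
      by_cases hub : v = b e
      · rw [hub] at hc'; exact h2 hc'
      · exact Set.disjoint_left.1 (hPB e v (by rw [he]; exact huv.symm) hub) h1 hc'
    · by_cases hee : e = e'
      · subst hee; exact huv (he.symm.trans he')
      · exact Set.disjoint_left.1 (hPP e e' hee) (hQP e c hc).1 (hQP e' c hc').1
  · intro e
    obtain ⟨x, hxA, hxD⟩ := hAa e
    obtain ⟨y, hyA, hyD⟩ := hAb e
    obtain ⟨c0, hc0⟩ := exists_cell hε (hR (Sum.inr e) x hxA).1 (hR (Sum.inr e) x hxA).2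
    obtain ⟨c1, hc1⟩ := exists_cell hε (hR (Sum.inr e) y hyA).1 (hR (Sum.inr e) y hyA).2
    have hc0P : c0 ∈ P e := ⟨x, hc0, hxA⟩
    have hc0B : c0 ∈ B0 (a e) := ⟨x, hc0, hxD⟩
    have hc1P : c1 ∈ P e := ⟨y, hc1, hyA⟩
    have hc1B : c1 ∈ B0 (b e) := ⟨y, hc1, hyD⟩
    have key : ∀ c, ReflTransGen (cstep (P e)) c0 c →
        c ∈ Q e ∨ ∃ p ∈ B (a e), ∃ q ∈ B (b e), GridAdj p q := by
      intro c hc
      induction hc with
      | refl => left; exact ⟨c0, hc0P, hc0B, ReflTransGen.refl⟩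
      | @tail z w hz hzw ih =>
        rcases ih with ih | ih
        · by_cases hw : w ∈ B0 (b e)
          · right
            exact ⟨z, Or.inr ⟨e, rfl, ih⟩, w, Or.inl hw, hzw.2.2⟩
          · left
            obtain ⟨h1, h2⟩ := hQP e z ih
            obtain ⟨c2, g1, g2, g3⟩ := ih
            exact ⟨c2, g1, g2, g3.tail ⟨⟨h1, h2⟩, ⟨hzw.2.1, hw⟩, hzw.2.2⟩⟩
        · right; exact ih
    rcases key c1 (hconn (Sum.inr e) (hAp e) c0 hc0P c1 hc1P) with h | h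
    · exact absurd hc1B (hQP e c1 h).2
    · exact h

end Pool.Agent.Helper16.OddPack
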