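import Mathlib

/-!
# Packing negative cycles in planar signed graphs: shared definitions

`TopPlanar G` is literally the planarity hypothesis of the frozen statement `S11875`.
-/

set_option autoImplicit false

namespace Pool.Agent.Helper16.OddPack

/-- Topological planarity of a simple graph, exactly as in the frozen statement: the vertices are
distinct points of the plane, every edge is an injective arc joining its end points, no arc meets a
vertex in its interior, and the interiors of arcs of different edges are disjoint. -/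
def TopPlanar {V : Type} (G : SimpleGraph V) : Prop :=
  ∃ f : V → ℝ × ℝ, Function.Injective f ∧
    ∃ γ : ∀ u v : V, Path (f u) (f v),
      (∀ u v : V, G.Adj u v → Function.Injective ⇑(γ u v)) ∧
      (∀ u v : V, G.Adj u v → ∀ t : unitInterval, (t : ℝ) ∈ Set.Ioo (0 : ℝ) 1 →
          ∀ w : V, γ u v t ≠ f w) ∧
      (∀ u v u' v' : V, G.Adj u v → G.Adj u' v' → s(u, v) ≠ s(u', v') →
          ∀ t t' : unitInterval, (t : ℝ) ∈ Set.Ioo (0 : ℝ) 1 →
            (t' : ℝ) ∈ Set.Ioo (0 : ℝ) 1 → γ u v t ≠ γ u' v' t')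

/-- Adjacency in the square grid on `ℕ × ℕ`. -/
def GridAdj (p q : ℕ × ℕ) : Prop :=
  (p.1 = q.1 ∧ (p.2 + 1 = q.2 ∨ q.2 + 1 = p.2)) ∨ (p.2 = q.2 ∧ (p.1 + 1 = q.1 ∨ q.1 + 1 = p.1))

/-- `GridMinor G`: the graph `G` is a minor of a finite square grid, given by connected, nonempty,
pairwise disjoint branch sets `B v`, with a grid edge between `B u` and `B v` for every edge
`uv` of `G`. -/
def GridMinor {V : Type} (G : SimpleGraph V) : Prop :=
  ∃ (n : ℕ) (B : V → Set (ℕ × ℕ)),
    (∀ v, ∀ p ∈ B v, p.1 < n ∧ p.2 < n) ∧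
    (∀ v, (B v).Nonempty) ∧
    (∀ v, ∀ p ∈ B v, ∀ q ∈ B v,
      Relation.ReflTransGen (fun a b => a ∈ B v ∧ b ∈ B v ∧ GridAdj a b) p q) ∧
    (∀ u v, u ≠ v → Disjoint (B u) (B v)) ∧
    (∀ u v, G.Adj u v → ∃ p ∈ B u, ∃ q ∈ B v, GridAdj p q)

end Pool.Agent.Helper16.OddPack
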