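import Pool.Agent.Helper16.OddPack.Local

/-!
# Grid networks: `τ ≤ 3 ν`
-/

set_option autoImplicit false

namespace Pool.Agent.Helper16.OddPack

abbrev GP := Option (ℕ × ℕ)

def gridNet (h v : ℕ → ℕ → Option Lab) : Net GP :=
  {e | ∃ i j l, (h i j = some l ∧ e = (some (i, j), some (i, j + 1), l)) ∨
    (v i j = some l ∧ e = (some (i, j), some (i + 1, j), l))}

theorem mem_gridNet {h v : ℕ → ℕ → Option Lab} {p q : GP} {l : Lab} :
    (p, q, l) ∈ gridNet h v ↔ ∃ i j, (h i j = some l ∧ p = some (i, j) ∧ q = some (i, j + 1)) ∨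
      (v i j = some l ∧ p = some (i, j) ∧ q = some (i + 1, j)) := by
  constructor
  · rintro ⟨i, j, l', (⟨h1, h2⟩ | ⟨h1, h2⟩)⟩
    · simp only [Prod.mk.injEq] at h2
      obtain ⟨rfl, rfl, rfl⟩ := h2
      exact ⟨i, j, Or.inl ⟨h1, rfl, rfl⟩⟩
    · simp only [Prod.mk.injEq] at h2
      obtain ⟨rfl, rfl, rfl⟩ := h2
      exact ⟨i, j, Or.inr ⟨h1, rfl, rfl⟩⟩
  · rintro ⟨i, j, (⟨h1, rfl, rfl⟩ | ⟨h1, rfl, rfl⟩)⟩
    · exact ⟨i, j, l, Or.inl ⟨h1, rfl⟩⟩
    · exact ⟨i, j, l, Or.inr ⟨h1, rfl⟩⟩

def setH (h : ℕ → ℕ → Option Lab) (a b : ℕ) (w e : Option Lab) : ℕ → ℕ → Option Lab :=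
  fun i j => if i = a + 1 ∧ j = b then w else if i = a + 1 ∧ j = b + 1 then e else h i j

def setV (v : ℕ → ℕ → Option Lab) (a b : ℕ) (n s : Option Lab) : ℕ → ℕ → Option Lab :=
  fun i j => if i = a ∧ j = b + 1 then n else if i = a + 1 ∧ j = b + 1 then s else v i j

theorem setH_self (h : ℕ → ℕ → Option Lab) (a b : ℕ) :
    setH h a b (h (a + 1) b) (h (a + 1) (b + 1)) = h := by
  funext i j
  unfold setH
  split_ifs with h1 h2
  · rw [h1.1, h1.2]
  · rw [h2.1, h2.2]
  · rfl

theorem setV_self (v : ℕ → ℕ → Option Lab) (a b : ℕ) :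
    setV v a b (v a (b + 1)) (v (a + 1) (b + 1)) = v := by
  funext i j
  unfold setV
  split_ifs with h1 h2
  · rw [h1.1, h1.2]
  · rw [h2.1, h2.2]
  · rfl

theorem gridNet_set (h v : ℕ → ℕ → Option Lab) (a b : ℕ) (n w e s : Option Lab) :
    gridNet (setH h a b w e) (setV v a b n s) =
      gridNet (setH h a b none none) (setV v a b none none) ∪
        (lab (some (a, b + 1)) (some (a + 1, b + 1)) n ∪
          (lab (some (a + 1, b)) (some (a + 1, b + 1)) w ∪
            (lab (some (a + 1, b + 1)) (some (a + 1, b + 2)) e ∪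
              lab (some (a + 1, b + 1)) (some (a + 2, b + 1)) s))) := by
  ext ⟨p, q, l⟩
  simp only [Set.mem_union, mem_gridNet, mem_lab]
  constructor
  · rintro ⟨i, j, (⟨h1, rfl, rfl⟩ | ⟨h1, rfl, rfl⟩)⟩
    · unfold setH at h1
      split_ifs at h1 with h2 h3
      · obtain ⟨rfl, rfl⟩ := h2
        right; right; left; exact ⟨h1, rfl, rfl⟩
      · obtain ⟨rfl, rfl⟩ := h3
        right; right; right; left; exact ⟨h1, rfl, rfl⟩
      · left
        refine ⟨i, j, Or.inl ⟨?_, rfl, rfl⟩⟩
        unfold setH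
        rw [if_neg h2, if_neg h3]; exact h1
    · unfold setV at h1
      split_ifs at h1 with h2 h3
      · obtain ⟨rfl, rfl⟩ := h2
        right; left; exact ⟨h1, rfl, rfl⟩
      · obtain ⟨rfl, rfl⟩ := h3
        right; right; right; right; exact ⟨h1, rfl, rfl⟩
      · left
        refine ⟨i, j, Or.inr ⟨?_, rfl, rfl⟩⟩
        unfold setV
        rw [if_neg h2, if_neg h3]; exact h1
  · rintro (⟨i, j, (⟨h1, rfl, rfl⟩ | ⟨h1, rfl, rfl⟩)⟩ | ⟨h1, rfl, rfl⟩ | ⟨h1, rfl, rfl⟩ |
      ⟨h1, rfl, rfl⟩ | ⟨h1, rfl, rfl⟩)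
    · unfold setH at h1
      split_ifs at h1 with h2 h3
      refine ⟨i, j, Or.inl ⟨?_, rfl, rfl⟩⟩
      unfold setH
      rw [if_neg h2, if_neg h3]; exact h1
    · unfold setV at h1
      split_ifs at h1 with h2 h3
      refine ⟨i, j, Or.inr ⟨?_, rfl, rfl⟩⟩
      unfold setV
      rw [if_neg h2, if_neg h3]; exact h1
    · refine ⟨a, b + 1, Or.inr ⟨?_, rfl, rfl⟩⟩
      unfold setV; rw [if_pos ⟨rfl, rfl⟩]; exact h1
    · refine ⟨a + 1, b, Or.inl ⟨?_, rfl, rfl⟩⟩
      unfold setH; rw [if_pos ⟨rfl, rfl⟩]; exact h1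
    · refine ⟨a + 1, b + 1, Or.inl ⟨?_, rfl, rfl⟩⟩
      unfold setH; rw [if_neg (by omega), if_pos ⟨rfl, rfl⟩]; exact h1
    · refine ⟨a + 1, b + 1, Or.inr ⟨?_, rfl, rfl⟩⟩
      unfold setV; rw [if_neg (by omega), if_pos ⟨rfl, rfl⟩]; exact h1

theorem untouched_base (h v : ℕ → ℕ → Option Lab) (a b : ℕ) :
    Untouched (gridNet (setH h a b none none) (setV v a b none none)) (some (a + 1, b + 1)) := by
  intro p q l hpq
  rw [mem_gridNet] at hpq
  obtain ⟨i, j, (⟨h1, rfl, rfl⟩ | ⟨h1, rfl, rfl⟩)⟩ := hpq
  · unfold setH at h1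
    split_ifs at h1 with h2 h3
    simp only [ne_eq, Option.some.injEq, Prod.mk.injEq]
    omega
  · unfold setV at h1
    split_ifs at h1 with h2 h3
    simp only [ne_eq, Option.some.injEq, Prod.mk.injEq]
    omega

theorem untouched_none (h v : ℕ → ℕ → Option Lab) : Untouched (gridNet h v) none := by
  intro p q l hpq
  rw [mem_gridNet] at hpq
  obtain ⟨i, j, (⟨h1, rfl, rfl⟩ | ⟨h1, rfl, rfl⟩)⟩ := hpq <;> simp

def Reg (n : ℕ) (h v : ℕ → ℕ → Option Lab) : Prop :=
  ∀ i j, (h i j ≠ none → i < n ∧ j + 1 < n) ∧ (v i j ≠ none → i + 1 < n ∧ j < n)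

def Before (I J : ℕ) (h v : ℕ → ℕ → Option Lab) : Prop :=
  ∀ i j, (i < I ∨ (i = I ∧ j < J)) → h i j = none ∧ v i j = none

/-- grid networks with one diagonal edge in the cell `(a, b)` -/
def DF (n I J a b : ℕ) (N : Net GP) : Prop :=
  ∃ (h v : ℕ → ℕ → Option Lab) (δ : Option Lab), Reg n h v ∧ Before I J h v ∧
    (δ ≠ none → a + 1 < n ∧ b + 1 < n) ∧
    N = gridNet h v ∪ lab (some (a, b + 1)) (some (a + 1, b)) δ

theorem DF_sub {n I J a b : ℕ} {N N1 : Net GP} (hN : DF n I J a b N) (hsub : N1 ⊆ N) :
    DF n I J a b N1 := by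
  classical
  obtain ⟨h, v, δ, h1, h2, h3, rfl⟩ := hN
  refine ⟨fun i j => if ∃ l, ((some (i, j), some (i, j + 1), l) : GP × GP × Lab) ∈ N1 then h i j
      else none, fun i j => if ∃ l, ((some (i, j), some (i + 1, j), l) : GP × GP × Lab) ∈ N1 then
      v i j else none,
      if ∃ l, ((some (a, b + 1), some (a + 1, b), l) : GP × GP × Lab) ∈ N1 then δ else none,
      ?_, ?_, ?_, ?_⟩
  · intro i j
    constructor
    · beta_reduce
      split_ifs
      · exact (h1 i j).1
      · intro h; exact absurd rfl h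
    · beta_reduce
      split_ifs
      · exact (h1 i j).2
      · intro h; exact absurd rfl h
  · intro i j hij
    obtain ⟨h4, h5⟩ := h2 i j hij
    constructor
    · show (if _ then h i j else none) = none
      split_ifs
      · exact h4
      · rfl
    · show (if _ then v i j else none) = none
      split_ifs
      · exact h5
      · rfl
  · split_ifs
    · exact h3
    · intro h; exact absurd rfl h
  · ext ⟨p, q, l⟩
    simp only [Set.mem_union, mem_gridNet, mem_lab]
    constructor
    · intro hp
      rcases hsub hp with h4 | h4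
      · rw [mem_gridNet] at h4
        obtain ⟨i, j, (⟨h5, rfl, rfl⟩ | ⟨h5, rfl, rfl⟩)⟩ := h4
        · left
          exact ⟨i, j, Or.inl ⟨by rw [if_pos ⟨l, hp⟩]; exact h5, rfl, rfl⟩⟩
        · left
          exact ⟨i, j, Or.inr ⟨by rw [if_pos ⟨l, hp⟩]; exact h5, rfl, rfl⟩⟩
      · rw [mem_lab] at h4
        obtain ⟨h5, rfl, rfl⟩ := h4
        right
        exact ⟨by rw [if_pos ⟨l, hp⟩]; exact h5, rfl, rfl⟩
    · rintro (⟨i, j, (⟨h5, rfl, rfl⟩ | ⟨h5, rfl, rfl⟩)⟩ | ⟨h5, rfl, rfl⟩)
      · split_ifs at h5 with h6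
        obtain ⟨l', hl'⟩ := h6
        have h7 := hsub hl'
        rcases h7 with h7 | h7
        · rw [mem_gridNet] at h7
          obtain ⟨i', j', (⟨h8, h9, h10⟩ | ⟨h8, h9, h10⟩)⟩ := h7
          · simp only [Option.some.injEq, Prod.mk.injEq] at h9
            obtain ⟨rfl, rfl⟩ := h9
            rw [h5] at h8
            simp only [Option.some.injEq] at h8
            rw [h8]; exact hl'
          · simp only [Option.some.injEq, Prod.mk.injEq] at h9 h10
            omega
        · rw [mem_lab] at h7
          obtain ⟨-, h9, h10⟩ := h7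
          simp only [Option.some.injEq, Prod.mk.injEq] at h9 h10
          omega
      · split_ifs at h5 with h6
        obtain ⟨l', hl'⟩ := h6
        have h7 := hsub hl'
        rcases h7 with h7 | h7
        · rw [mem_gridNet] at h7
          obtain ⟨i', j', (⟨h8, h9, h10⟩ | ⟨h8, h9, h10⟩)⟩ := h7
          · simp only [Option.some.injEq, Prod.mk.injEq] at h9 h10
            omega
          · simp only [Option.some.injEq, Prod.mk.injEq] at h9
            obtain ⟨rfl, rfl⟩ := h9
            rw [h5] at h8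
            simp only [Option.some.injEq] at h8
            rw [h8]; exact hl'
        · rw [mem_lab] at h7
          obtain ⟨-, h9, h10⟩ := h7
          simp only [Option.some.injEq, Prod.mk.injEq] at h9 h10
          omega
      · split_ifs at h5 with h6
        obtain ⟨l', hl'⟩ := h6
        have h7 := hsub hl'
        rcases h7 with h7 | h7
        · rw [mem_gridNet] at h7
          obtain ⟨i', j', (⟨h8, h9, h10⟩ | ⟨h8, h9, h10⟩)⟩ := h7
          · simp only [Option.some.injEq, Prod.mk.injEq] at h9 h10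
            omega
          · simp only [Option.some.injEq, Prod.mk.injEq] at h9 h10
            omega
        · rw [mem_lab] at h7
          obtain ⟨h8, -, -⟩ := h7
          rw [h5] at h8
          simp only [Option.some.injEq] at h8
          rw [h8]; exact hl'

theorem DF_finite {n I J a b : ℕ} {N : Net GP} (hN : DF n I J a b N) :
    ({t ∈ N | t.2.2 ≠ Lab.inf} : Set (GP × GP × Lab)).Finite := by
  obtain ⟨h, v, δ, h1, h2, h3, rfl⟩ := hN
  have hfin : ((some '' ((Set.Iio (n + 1)) ×ˢ (Set.Iio (n + 1)))) ×ˢ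
      ((some '' ((Set.Iio (n + 1)) ×ˢ (Set.Iio (n + 1)))) ×ˢ (Set.univ : Set Lab)) :
      Set (GP × GP × Lab)).Finite := by
    have hlab : (Set.univ : Set Lab).Finite := by
      apply Set.Finite.subset (Set.toFinite ({Lab.inf, Lab.pos, Lab.neg} : Set Lab))
      intro l _
      cases l <;> simp
    exact (((Set.finite_Iio _).prod (Set.finite_Iio _)).image _).prod
      ((((Set.finite_Iio _).prod (Set.finite_Iio _)).image _).prod hlab)
  apply hfin.subset
  rintro ⟨p, q, l⟩ ⟨hpq, -⟩
  simp only [Set.mem_union, mem_gridNet, mem_lab] at hpq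
  simp only [Set.mem_prod, Set.mem_image, Set.mem_Iio, Set.mem_univ, and_true, Prod.exists]
  rcases hpq with ⟨i, j, (⟨h5, rfl, rfl⟩ | ⟨h5, rfl, rfl⟩)⟩ | ⟨h5, rfl, rfl⟩
  · have := (h1 i j).1 (by rw [h5]; simp)
    exact ⟨⟨i, j, ⟨by omega, by omega⟩, rfl⟩, ⟨i, j + 1, ⟨by omega, by omega⟩, rfl⟩⟩
  · have := (h1 i j).2 (by rw [h5]; simp)
    exact ⟨⟨i, j, ⟨by omega, by omega⟩, rfl⟩, ⟨i + 1, j, ⟨by omega, by omega⟩, rfl⟩⟩
  · have := h3 (by rw [h5]; simp)
    exact ⟨⟨a, b + 1, ⟨by omega, by omega⟩, rfl⟩, ⟨a + 1, b, ⟨by omega, by omega⟩, rfl⟩⟩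

theorem diag_good (n I J : ℕ)
    (IH : ∀ h v, Reg n h v → Before I J h v → Good (gridNet h v)) :
    ∀ f a b, n ≤ a + 1 + f → I ≤ a → (a = I → J ≤ b + 1) → ∀ N, DF n I J a b N → Good N := by
  intro f
  induction f with
  | zero =>
    intro a b hn hI hJ N hN
    obtain ⟨h, v, δ, h1, h2, h3, rfl⟩ := hN
    have hδ : δ = none := by
      by_contra hδ
      have := (h3 hδ).1
      omega
    rw [hδ, lab_none, Set.union_empty]
    exact IH h v h1 h2
  | succ f ih =>
    intro a b hn hI hJ
    apply good_of_clean (DF n I J a b)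
    · intro N N1 hN hsub _
      exact DF_sub hN hsub
    · intro N hN
      exact DF_finite hN
    · intro N hN hclean
      obtain ⟨h, v, δ, h1, h2, h3, rfl⟩ := hN
      rcases δ with - | d
      · rw [lab_none, Set.union_empty]
        exact IH h v h1 h2
      obtain ⟨ha, hb⟩ := h3 (by simp)
      -- consistency from cleanness
      have hcons : ∃ x y z : Bool, ok d y z ∧ (∀ l, v a (b + 1) = some l → ok l y x) ∧
          (∀ l, h (a + 1) b = some l → ok l z x) := by
        obtain ⟨φ, hφ⟩ := hclean {some (a + 1, b + 1), some (a, b + 1), some (a + 1, b)}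
          (Finset.card_le_three)
        have hx := subset_cl (gridNet h v ∪ lab (some (a, b + 1)) (some (a + 1, b)) (some d))
          (({some (a + 1, b + 1), some (a, b + 1), some (a + 1, b)} : Finset GP) : Set GP)
        refine ⟨φ (some (a + 1, b + 1)), φ (some (a, b + 1)), φ (some (a + 1, b)), ?_, ?_, ?_⟩
        · refine hφ _ _ _ (Or.inr (mem_lab.2 ⟨rfl, rfl, rfl⟩)) (hx (by simp)) (hx (by simp))
        · intro l hl
          exact hφ _ _ _ (Or.inl (mem_gridNet.2 ⟨a, b + 1, Or.inr ⟨hl, rfl, rfl⟩⟩))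
            (hx (by simp)) (hx (by simp))
        · intro l hl
          exact hφ _ _ _ (Or.inl (mem_gridNet.2 ⟨a + 1, b, Or.inl ⟨hl, rfl, rfl⟩⟩))
            (hx (by simp)) (hx (by simp))
      obtain ⟨n', w', e', s', d', he, hs, hsim⟩ := move
        (M := gridNet (setH h a b none none) (setV v a b none none))
        (x := some (a + 1, b + 1)) (y := none) (N := some (a, b + 1)) (E := some (a + 1, b + 2))
        (S := some (a + 2, b + 1)) (W := some (a + 1, b))
        (untouched_base h v a b) (untouched_none _ _) (by simp) (by simp) (by simp) (by simp)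
        (by simp) (by simp) (by simp) (by simp) (by simp)
        (v a (b + 1)) (h (a + 1) b) (h (a + 1) (b + 1)) (v (a + 1) (b + 1)) d hcons
      rw [← gridNet_set, ← gridNet_set, setH_self, setV_self] at hsim
      apply hsim.good
      apply ih (a + 1) (b + 1) (by omega) (by omega) (by omega)
      refine ⟨_, _, d', ?_, ?_, ?_, rfl⟩
      · intro i j
        constructor
        · intro hne
          unfold setH at hne
          split_ifs at hne with h4 h5
          · omega
          · obtain ⟨rfl, rfl⟩ := h5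
            apply (h1 _ _).1
            intro h6
            exact hne (he h6).1
          · exact (h1 i j).1 hne
        · intro hne
          unfold setV at hne
          split_ifs at hne with h4 h5
          · omega
          · obtain ⟨rfl, rfl⟩ := h5
            apply (h1 _ _).2
            intro h6
            exact hne (hs h6).1
          · exact (h1 i j).2 hne
      · intro i j hij
        have hb := h2 i j hij
        constructor
        · unfold setH
          rw [if_neg (by omega), if_neg (by omega)]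
          exact hb.1
        · unfold setV
          rw [if_neg (by omega), if_neg (by omega)]
          exact hb.2
      · intro hd
        have h6 := (h1 (a + 1) (b + 1)).1 (fun h6 => hd (he h6).2)
        have h7 := (h1 (a + 1) (b + 1)).2 (fun h7 => hd (hs h7).2)
        omega

def setO (h : ℕ → ℕ → Option Lab) (I J : ℕ) (e : Option Lab) : ℕ → ℕ → Option Lab :=
  fun i j => if i = I ∧ j = J then e else h i j

theorem setO_self (h : ℕ → ℕ → Option Lab) (I J : ℕ) : setO h I J (h I J) = h := by
  funext i j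
  unfold setO
  split_ifs with h1
  · rw [h1.1, h1.2]
  · rfl

theorem gridNet_setO (h v : ℕ → ℕ → Option Lab) (I J : ℕ) (e s : Option Lab) :
    gridNet (setO h I J e) (setO v I J s) =
      gridNet (setO h I J none) (setO v I J none) ∪
        (lab (some (I, J)) (some (I, J + 1)) e ∪ lab (some (I, J)) (some (I + 1, J)) s) := by
  ext ⟨p, q, l⟩
  simp only [Set.mem_union, mem_gridNet, mem_lab]
  constructor
  · rintro ⟨i, j, (⟨h1, rfl, rfl⟩ | ⟨h1, rfl, rfl⟩)⟩
    · unfold setO at h1
      split_ifs at h1 with h2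
      · obtain ⟨rfl, rfl⟩ := h2
        right; left; exact ⟨h1, rfl, rfl⟩
      · left
        refine ⟨i, j, Or.inl ⟨?_, rfl, rfl⟩⟩
        unfold setO
        rw [if_neg h2]; exact h1
    · unfold setO at h1
      split_ifs at h1 with h2
      · obtain ⟨rfl, rfl⟩ := h2
        right; right; exact ⟨h1, rfl, rfl⟩
      · left
        refine ⟨i, j, Or.inr ⟨?_, rfl, rfl⟩⟩
        unfold setO
        rw [if_neg h2]; exact h1
  · rintro (⟨i, j, (⟨h1, rfl, rfl⟩ | ⟨h1, rfl, rfl⟩)⟩ | ⟨h1, rfl, rfl⟩ | ⟨h1, rfl, rfl⟩)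
    · unfold setO at h1
      split_ifs at h1 with h2
      refine ⟨i, j, Or.inl ⟨?_, rfl, rfl⟩⟩
      unfold setO
      rw [if_neg h2]; exact h1
    · unfold setO at h1
      split_ifs at h1 with h2
      refine ⟨i, j, Or.inr ⟨?_, rfl, rfl⟩⟩
      unfold setO
      rw [if_neg h2]; exact h1
    · refine ⟨I, J, Or.inl ⟨?_, rfl, rfl⟩⟩
      unfold setO; rw [if_pos ⟨rfl, rfl⟩]; exact h1
    · refine ⟨I, J, Or.inr ⟨?_, rfl, rfl⟩⟩
      unfold setO; rw [if_pos ⟨rfl, rfl⟩]; exact h1

theorem remove_pos (n I J : ℕ)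
    (IH : ∀ h v, Reg n h v → Before I (J + 1) h v → Good (gridNet h v)) :
    ∀ h v, Reg n h v → Before I J h v → Good (gridNet h v) := by
  intro h v hreg hbef
  have hunt : Untouched (gridNet (setO h I J none) (setO v I J none)) (some (I, J)) := by
    intro p q l hpq
    rw [mem_gridNet] at hpq
    obtain ⟨i, j, (⟨h1, rfl, rfl⟩ | ⟨h1, rfl, rfl⟩)⟩ := hpq
    · unfold setO at h1
      split_ifs at h1 with h2
      have h3 : ¬ (i < I ∨ (i = I ∧ j < J)) := by
        intro h4
        rw [(hbef i j h4).1] at h1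
        exact absurd h1 (by simp)
      simp only [ne_eq, Option.some.injEq, Prod.mk.injEq]
      omega
    · unfold setO at h1
      split_ifs at h1 with h2
      have h3 : ¬ (i < I ∨ (i = I ∧ j < J)) := by
        intro h4
        rw [(hbef i j h4).2] at h1
        exact absurd h1 (by simp)
      simp only [ne_eq, Option.some.injEq, Prod.mk.injEq]
      omega
  obtain ⟨e', s', d', he, hs, hγ, hsim⟩ := yd hunt (y := none) (E := some (I, J + 1))
    (S := some (I + 1, J)) (by simp) (by simp) (by simp) none (h I J) (v I J)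
  obtain ⟨he', hs'⟩ := hγ rfl
  rw [he', hs', lab_none, lab_none, lab_none, Set.empty_union, Set.empty_union, Set.empty_union,
    ← gridNet_setO, setO_self, setO_self] at hsim
  apply hsim.good
  apply diag_good n I (J + 1) IH n I J (by omega) le_rfl (fun _ => le_rfl)
  refine ⟨_, _, d', ?_, ?_, ?_, rfl⟩
  · intro i j
    constructor
    · intro hne
      unfold setO at hne
      split_ifs at hne with h4
      · exact absurd rfl hne
      · exact (hreg i j).1 hne
    · intro hne
      unfold setO at hne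
      split_ifs at hne with h4
      · exact absurd rfl hne
      · exact (hreg i j).2 hne
  · intro i j hij
    by_cases h4 : i = I ∧ j = J
    · constructor
      · unfold setO; rw [if_pos h4]
      · unfold setO; rw [if_pos h4]
    · have := hbef i j (by omega)
      constructor
      · unfold setO; rw [if_neg h4]; exact this.1
      · unfold setO; rw [if_neg h4]; exact this.2
  · intro hd
    have h6 := (hreg I J).1 (fun h6 => hd (he h6).2)
    have h7 := (hreg I J).2 (fun h7 => hd (hs h7).2)
    omega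

theorem good_empty : Good (∅ : Net GP) := by
  refine ⟨0, ⟨fun _ => ∅, fun i => i.elim0, fun i => i.elim0, fun i => i.elim0⟩, ∅, by simp,
    fun _ => false, ?_⟩
  intro p q l h
  exact absurd h (Set.notMem_empty _)

/-- **Every finite labelled grid has `k` disjoint unbalanced sets and `3k` positions whose
deletion balances it.** -/
theorem grid_good (n : ℕ) (h v : ℕ → ℕ → Option Lab) (hreg : Reg n h v) : Good (gridNet h v) := by
  have main : ∀ m I, I + m = n → ∀ h v, Reg n h v → Before I 0 h v → Good (gridNet h v) := by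
    intro m
    induction m with
    | zero =>
      intro I hI h v hreg hbef
      have : gridNet h v = ∅ := by
        ext ⟨p, q, l⟩
        rw [mem_gridNet]
        simp only [Set.mem_empty_iff_false, iff_false]
        rintro ⟨i, j, (⟨h1, -, -⟩ | ⟨h1, -, -⟩)⟩
        · have := (hreg i j).1 (by rw [h1]; simp)
          have := (hbef i j (by omega)).1
          rw [this] at h1
          exact absurd h1 (by simp)
        · have := (hreg i j).2 (by rw [h1]; simp)
          have := (hbef i j (by omega)).2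
          rw [this] at h1
          exact absurd h1 (by simp)
      rw [this]
      exact good_empty
    | succ m ih =>
      intro I hI
      have row : ∀ f J, J + f = n → ∀ h v, Reg n h v → Before I J h v → Good (gridNet h v) := by
        intro f
        induction f with
        | zero =>
          intro J hJ h v hreg hbef
          apply ih (I + 1) (by omega) h v hreg
          intro i j hij
          by_cases h4 : i < I ∨ (i = I ∧ j < J)
          · exact hbef i j h4
          · constructor
            · by_contra h5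
              have := (hreg i j).1 h5
              omega
            · by_contra h5
              have := (hreg i j).2 h5
              omega
        | succ f ihf =>
          intro J hJ
          exact remove_pos n I J (ihf (J + 1) (by omega))
      exact row n 0 (by omega)
  exact main n 0 (by omega) h v hreg (fun i j hij => by omega)

end Pool.Agent.Helper16.OddPack
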