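import Pool.Agent.Helper16.OddPack.Moves

/-!
# The two local replacement steps with arbitrary labels
-/

set_option autoImplicit false

namespace Pool.Agent.Helper16.OddPack

variable {P : Type}

theorem ok_comm (l : Lab) (a b : Bool) : ok l a b ↔ ok l b a := by
  cases l <;> cases a <;> cases b <;> simp [ok]

theorem exists_sg {o : Option Lab} (h : o ≠ some Lab.inf) : ∃ s : Option Bool, o = s.map sg := by
  rcases o with - | l
  · exact ⟨none, rfl⟩
  · cases l
    · exact absurd rfl h
    · exact ⟨some false, rfl⟩
    · exact ⟨some true, rfl⟩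

/-- slide legs along an `inf` edge -/
theorem slide2 (N : Net P) (x a b c : P) (β γ : Option Lab) :
    Sim (N ∪ (lab a b β ∪ lab a c γ) ∪ lab x a (some Lab.inf))
      (N ∪ (lab x a (some Lab.inf) ∪ (lab x b β ∪ lab x c γ))) := by
  rw [Set.union_assoc]
  apply sim_local
  intro U φ
  simp only [satu_union, satu_lab, con_union, con_lab, Option.some.injEq]
  constructor
  · constructor
    · rintro ⟨⟨h1, h2⟩, h3⟩
      exact ⟨h3, fun h => (h3 trivial).trans (h1 h), fun h => (h3 trivial).trans (h2 h)⟩
    · rintro ⟨h3, h1, h2⟩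
      exact ⟨⟨fun h => (h3 trivial).symm.trans (h1 h), fun h => (h3 trivial).symm.trans (h2 h)⟩, h3⟩
  · rintro ⟨h3, -, -⟩
    have h4 := h3 trivial
    constructor
    · rintro ⟨⟨h1, h2⟩, h5⟩
      refine ⟨h5, fun l hl hx hb => ?_, fun l hl hx hb => ?_⟩
      · have e : φ x = φ a := h5 _ rfl hx (h4.1 hx)
        rw [e]; exact h1 l hl (h4.1 hx) hb
      · have e : φ x = φ a := h5 _ rfl hx (h4.1 hx)
        rw [e]; exact h2 l hl (h4.1 hx) hb
    · rintro ⟨h5, h1, h2⟩
      refine ⟨⟨fun l hl hx hb => ?_, fun l hl hx hb => ?_⟩, h5⟩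
      · have e : φ x = φ a := h5 _ rfl (h4.2 hx) hx
        rw [← e]; exact h1 l hl (h4.2 hx) hb
      · have e : φ x = φ a := h5 _ rfl (h4.2 hx) hx
        rw [← e]; exact h2 l hl (h4.2 hx) hb

/-- permuting / flipping labelled edges does not matter -/
theorem flip_con (p q : P) (o : Option Lab) (U : Set P) (φ : P → Bool) :
    Con (lab p q o) U φ ↔ Con (lab q p o) U φ := by
  rw [con_lab, con_lab]
  constructor
  · intro h l hl hq hp
    exact (ok_comm _ _ _).1 (h l hl hp hq)
  · intro h l hl hp hq
    exact (ok_comm _ _ _).1 (h l hl hq hp)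

theorem flip_satu (p q : P) (o : Option Lab) (U : Set P) :
    Satu (lab p q o) U ↔ Satu (lab q p o) U := by
  rw [satu_lab, satu_lab]
  constructor
  · intro h ho; exact (h ho).symm
  · intro h ho; exact (h ho).symm

/-- **Elimination of a vertex `x` with at most three legs** -/
theorem yd [DecidableEq P] {N : Net P} {x y E S : P} (hx : Untouched N x) (hxy : y ≠ x)
    (hxE : E ≠ x) (hxS : S ≠ x) (γ e s : Option Lab) :
    ∃ e' s' d' : Option Lab, (e = none → e' = none ∧ d' = none) ∧
      (s = none → s' = none ∧ d' = none) ∧ (γ = none → e' = none ∧ s' = none) ∧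
      Sim (N ∪ (lab y E e' ∪ (lab y S s' ∪ lab E S d')))
        (N ∪ (lab y x γ ∪ (lab x E e ∪ lab x S s))) := by
  have hflip : Sim (N ∪ (lab x y γ ∪ (lab x E e ∪ lab x S s)))
      (N ∪ (lab y x γ ∪ (lab x E e ∪ lab x S s))) := by
    apply sim_local
    intro U φ
    simp only [satu_union, con_union]
    rw [flip_satu x y, flip_con x y]
    exact ⟨Iff.rfl, fun _ => Iff.rfl⟩
  -- detaching `x` from `a` after sliding
  have det : ∀ (a b c : P) (β δ : Option Lab), a ≠ x → b ≠ x → c ≠ x →
      Sim (N ∪ (lab a b β ∪ lab a c δ))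
        (N ∪ (lab x a (some Lab.inf) ∪ (lab x b β ∪ lab x c δ))) := by
    intro a b c β δ ha hb hc
    refine Sim.trans ?_ (slide2 N x a b c β δ)
    apply leaf_detach _ ha.symm
    rw [untouched_union, untouched_union]
    exact ⟨hx, untouched_lab _ ha hb, untouched_lab _ ha hc⟩
  by_cases hγ : γ = some Lab.inf
  · refine ⟨e, s, none, fun h => ⟨h, rfl⟩, fun h => ⟨h, rfl⟩, ?_, ?_⟩
    · rw [hγ]; intro h; simp at h
    · rw [lab_none, Set.union_empty]
      refine Sim.trans ?_ hflip
      rw [hγ]
      exact det y E S e s hxy hxE hxS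
  by_cases he : e = some Lab.inf
  · refine ⟨γ, none, s, ?_, fun h => ⟨rfl, h⟩, fun h => ⟨h, rfl⟩, ?_⟩
    · rw [he]; intro h; simp at h
    · refine Sim.trans ?_ hflip
      rw [he]
      refine Sim.trans ?_ (Sim.trans (det E y S γ s hxE hxy hxS) ?_)
      · apply sim_local
        intro U φ
        simp only [satu_union, con_union, lab_none]
        rw [flip_satu y E, flip_con y E]
        constructor
        · constructor
          · rintro ⟨h1, -, h2⟩; exact ⟨h1, h2⟩
          · rintro ⟨h1, h2⟩; exact ⟨h1, fun p q h => absurd h (Set.notMem_empty _), h2⟩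
        · intro _
          constructor
          · rintro ⟨h1, -, h2⟩; exact ⟨h1, h2⟩
          · rintro ⟨h1, h2⟩; exact ⟨h1, fun p q l h => absurd h (Set.notMem_empty _), h2⟩
      · apply sim_local
        intro U φ
        simp only [satu_union, con_union]
        constructor
        · tauto
        · intro _; tauto
  by_cases hs : s = some Lab.inf
  · refine ⟨none, γ, e, fun h => ⟨rfl, h⟩, ?_, fun h => ⟨rfl, h⟩, ?_⟩
    · rw [hs]; intro h; simp at h
    · refine Sim.trans ?_ hflip
      rw [hs]
      refine Sim.trans ?_ (Sim.trans (det S y E γ e hxS hxy hxE) ?_)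
      · apply sim_local
        intro U φ
        simp only [satu_union, con_union, lab_none]
        rw [flip_satu y S, flip_con y S, flip_satu E S, flip_con E S]
        constructor
        · constructor
          · rintro ⟨-, h1, h2⟩; exact ⟨h1, h2⟩
          · rintro ⟨h1, h2⟩; exact ⟨fun p q h => absurd h (Set.notMem_empty _), h1, h2⟩
        · intro _
          constructor
          · rintro ⟨-, h1, h2⟩; exact ⟨h1, h2⟩
          · rintro ⟨h1, h2⟩; exact ⟨fun p q l h => absurd h (Set.notMem_empty _), h1, h2⟩
      · apply sim_local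
        intro U φ
        simp only [satu_union, con_union]
        constructor
        · tauto
        · intro _; tauto
  obtain ⟨γ', rfl⟩ := exists_sg hγ
  obtain ⟨e1, rfl⟩ := exists_sg he
  obtain ⟨s1, rfl⟩ := exists_sg hs
  refine ⟨(mul γ' e1).map sg, (mul γ' s1).map sg, (mul e1 s1).map sg, ?_, ?_, ?_, ?_⟩
  · intro h
    have : e1 = none := by simpa using h
    subst this
    constructor
    · cases γ' <;> rfl
    · rfl
  · intro h
    have : s1 = none := by simpa using h
    subst this
    constructor
    · cases γ' <;> rfl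
    · cases e1 <;> rfl
  · intro h
    have : γ' = none := by simpa using h
    subst this
    exact ⟨rfl, rfl⟩
  · refine Sim.trans ?_ hflip
    refine Sim.trans ?_ (Sim.trans (sim_tri_star hx hxy.symm hxE.symm hxS.symm γ' e1 s1) ?_)
    · apply sim_local
      intro U φ
      unfold tri leg
      simp only [satu_union, con_union]
      constructor
      · tauto
      · intro _; tauto
    · apply sim_local
      intro U φ
      unfold star leg
      exact ⟨Iff.rfl, fun _ => Iff.rfl⟩

set_option linter.unusedSimpArgs false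

/-- **Replacing the triangle `N W x` by a star with new centre `y`** -/
theorem dy [DecidableEq P] {M : Net P} {x y N W : P} (hy : Untouched M y) (hyx : x ≠ y)
    (hyN : N ≠ y) (hyW : W ≠ y) (n w : Option Lab) (d : Lab)
    (hcons : ∃ a b c : Bool, ok d b c ∧ (∀ l, n = some l → ok l b a) ∧
      (∀ l, w = some l → ok l c a)) :
    ∃ α β γ : Option Lab,
      Sim (M ∪ (lab N y α ∪ (lab W y β ∪ lab y x γ)))
        (M ∪ (lab N W (some d) ∪ (lab N x n ∪ lab W x w))) := by
  -- attaching `y` to `a`
  have att : ∀ (a : P), a ≠ y →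
      Sim (M ∪ ((lab N W (some d) ∪ (lab N x n ∪ lab W x w)) ∪ lab y a (some Lab.inf)))
        (M ∪ (lab N W (some d) ∪ (lab N x n ∪ lab W x w))) := by
    intro a ha
    rw [← Set.union_assoc]
    apply leaf_attach _ ha.symm
    simp only [untouched_union]
    exact ⟨hy, untouched_lab _ hyN hyW, untouched_lab _ hyN hyx, untouched_lab _ hyW hyx⟩
  rcases n with - | n
  · -- `n = none`: `y` joined to `W`
    refine ⟨some d, some Lab.inf, w, Sim.trans ?_ (att W hyW)⟩
    apply sim_local
    intro U φ
    have okinf : ∀ a b : Bool, ok Lab.inf a b ↔ a = b := fun a b => Iff.rfl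
    have okpos : ∀ a b : Bool, ok Lab.pos a b ↔ a = b := fun a b => Iff.rfl
    have okneg : ∀ a b : Bool, ok Lab.neg a b ↔ a ≠ b := fun a b => Iff.rfl
    have okc := ok_comm
    simp only [satu_union, satu_lab, con_union, con_lab, Option.some.injEq, reduceCtorEq,
      false_imp_iff, true_and, forall_eq', imp_true_iff, okinf, okpos, okneg]
    constructor
    · grind
    · grind
  rcases w with - | w
  · -- `w = none`: `y` joined to `N`
    refine ⟨some Lab.inf, some d, some n, Sim.trans ?_ (att N hyN)⟩
    apply sim_local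
    intro U φ
    have okinf : ∀ a b : Bool, ok Lab.inf a b ↔ a = b := fun a b => Iff.rfl
    have okpos : ∀ a b : Bool, ok Lab.pos a b ↔ a = b := fun a b => Iff.rfl
    have okneg : ∀ a b : Bool, ok Lab.neg a b ↔ a ≠ b := fun a b => Iff.rfl
    have okc := ok_comm
    simp only [satu_union, satu_lab, con_union, con_lab, Option.some.injEq, reduceCtorEq,
      false_imp_iff, true_and, forall_eq', imp_true_iff, okinf, okpos, okneg]
    constructor
    · grind
    · grind
  obtain ⟨a, b, c, h1, h2, h3⟩ := hcons
  replace h2 := h2 n rfl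
  replace h3 := h3 w rfl
  -- the case of three signed edges
  have three : ∀ α β : Bool, n = sg α → w = sg β → d = sg (xor α β) → ∃ α β γ : Option Lab,
      Sim (M ∪ (lab N y α ∪ (lab W y β ∪ lab y x γ)))
        (M ∪ (lab N W (some d) ∪ (lab N x (some n) ∪ lab W x (some w)))) := by
    intro α β hn hw hd
    refine ⟨some n, some w, some Lab.pos, ?_⟩
    refine Sim.trans ?_ (Sim.trans (sim_star_tri hy hyN.symm hyW.symm hyx.symm α β false) ?_)
    · apply sim_local
      intro U φ
      unfold star leg
      simp only [satu_union, con_union, Option.map_some]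
      rw [flip_satu N y, flip_con N y, flip_satu W y, flip_con W y, hn, hw]
      exact ⟨Iff.rfl, fun _ => Iff.rfl⟩
    · apply sim_local
      intro U φ
      unfold tri leg mul
      simp only [satu_union, con_union, Option.map_some, Bool.xor_false]
      rw [hn, hw, hd]
      constructor
      · tauto
      · intro _; tauto
  cases n <;> cases w <;> cases d <;> first
    | (exfalso; clear three att; revert h1 h2 h3; cases a <;> cases b <;> cases c <;> simp [ok]; done)
    | exact three false false rfl rfl rfl
    | exact three false true rfl rfl rfl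
    | exact three true false rfl rfl rfl
    | exact three true true rfl rfl rfl
    | (refine ⟨some Lab.inf, some Lab.inf, some Lab.inf, Sim.trans ?_ (att x hyx)⟩
       apply sim_local
       intro U φ
       have okinf : ∀ a b : Bool, ok Lab.inf a b ↔ a = b := fun a b => Iff.rfl
       have okpos : ∀ a b : Bool, ok Lab.pos a b ↔ a = b := fun a b => Iff.rfl
       have okneg : ∀ a b : Bool, ok Lab.neg a b ↔ a ≠ b := fun a b => Iff.rfl
       have okc := ok_comm
       simp only [satu_union, satu_lab, con_union, con_lab, Option.some.injEq, reduceCtorEq,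
         false_imp_iff, true_and, forall_eq', imp_true_iff, okinf, okpos, okneg]
       constructor
       · grind
       · grind)
    | (refine ⟨some Lab.inf, some Lab.pos, some Lab.inf, Sim.trans ?_ (att x hyx)⟩
       apply sim_local
       intro U φ
       have okinf : ∀ a b : Bool, ok Lab.inf a b ↔ a = b := fun a b => Iff.rfl
       have okpos : ∀ a b : Bool, ok Lab.pos a b ↔ a = b := fun a b => Iff.rfl
       have okneg : ∀ a b : Bool, ok Lab.neg a b ↔ a ≠ b := fun a b => Iff.rfl
       have okc := ok_comm
       simp only [satu_union, satu_lab, con_union, con_lab, Option.some.injEq, reduceCtorEq,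
         false_imp_iff, true_and, forall_eq', imp_true_iff, okinf, okpos, okneg]
       constructor
       · grind
       · grind)
    | (refine ⟨some Lab.inf, some Lab.neg, some Lab.inf, Sim.trans ?_ (att x hyx)⟩
       apply sim_local
       intro U φ
       have okinf : ∀ a b : Bool, ok Lab.inf a b ↔ a = b := fun a b => Iff.rfl
       have okpos : ∀ a b : Bool, ok Lab.pos a b ↔ a = b := fun a b => Iff.rfl
       have okneg : ∀ a b : Bool, ok Lab.neg a b ↔ a ≠ b := fun a b => Iff.rfl
       have okc := ok_comm
       simp only [satu_union, satu_lab, con_union, con_lab, Option.some.injEq, reduceCtorEq,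
         false_imp_iff, true_and, forall_eq', imp_true_iff, okinf, okpos, okneg]
       constructor
       · grind
       · grind)
    | (refine ⟨some Lab.pos, some Lab.inf, some Lab.inf, Sim.trans ?_ (att x hyx)⟩
       apply sim_local
       intro U φ
       have okinf : ∀ a b : Bool, ok Lab.inf a b ↔ a = b := fun a b => Iff.rfl
       have okpos : ∀ a b : Bool, ok Lab.pos a b ↔ a = b := fun a b => Iff.rfl
       have okneg : ∀ a b : Bool, ok Lab.neg a b ↔ a ≠ b := fun a b => Iff.rfl
       have okc := ok_comm
       simp only [satu_union, satu_lab, con_union, con_lab, Option.some.injEq, reduceCtorEq,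
         false_imp_iff, true_and, forall_eq', imp_true_iff, okinf, okpos, okneg]
       constructor
       · grind
       · grind)
    | (refine ⟨some Lab.neg, some Lab.inf, some Lab.inf, Sim.trans ?_ (att x hyx)⟩
       apply sim_local
       intro U φ
       have okinf : ∀ a b : Bool, ok Lab.inf a b ↔ a = b := fun a b => Iff.rfl
       have okpos : ∀ a b : Bool, ok Lab.pos a b ↔ a = b := fun a b => Iff.rfl
       have okneg : ∀ a b : Bool, ok Lab.neg a b ↔ a ≠ b := fun a b => Iff.rfl
       have okc := ok_comm
       simp only [satu_union, satu_lab, con_union, con_lab, Option.some.injEq, reduceCtorEq,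
         false_imp_iff, true_and, forall_eq', imp_true_iff, okinf, okpos, okneg]
       constructor
       · grind
       · grind)
    | (refine ⟨some Lab.inf, some Lab.inf, some Lab.pos, Sim.trans ?_ (att N hyN)⟩
       apply sim_local
       intro U φ
       have okinf : ∀ a b : Bool, ok Lab.inf a b ↔ a = b := fun a b => Iff.rfl
       have okpos : ∀ a b : Bool, ok Lab.pos a b ↔ a = b := fun a b => Iff.rfl
       have okneg : ∀ a b : Bool, ok Lab.neg a b ↔ a ≠ b := fun a b => Iff.rfl
       have okc := ok_comm
       simp only [satu_union, satu_lab, con_union, con_lab, Option.some.injEq, reduceCtorEq,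
         false_imp_iff, true_and, forall_eq', imp_true_iff, okinf, okpos, okneg]
       constructor
       · grind
       · grind)
    | (refine ⟨some Lab.inf, some Lab.inf, some Lab.neg, Sim.trans ?_ (att N hyN)⟩
       apply sim_local
       intro U φ
       have okinf : ∀ a b : Bool, ok Lab.inf a b ↔ a = b := fun a b => Iff.rfl
       have okpos : ∀ a b : Bool, ok Lab.pos a b ↔ a = b := fun a b => Iff.rfl
       have okneg : ∀ a b : Bool, ok Lab.neg a b ↔ a ≠ b := fun a b => Iff.rfl
       have okc := ok_comm
       simp only [satu_union, satu_lab, con_union, con_lab, Option.some.injEq, reduceCtorEq,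
         false_imp_iff, true_and, forall_eq', imp_true_iff, okinf, okpos, okneg]
       constructor
       · grind
       · grind)

/-- **Moving the diagonal across `x`.** -/
theorem move [DecidableEq P] {M : Net P} {x y N E S W : P} (hx : Untouched M x)
    (hy : Untouched M y) (hxy : x ≠ y) (hN : N ≠ y) (hW : W ≠ y) (hE : E ≠ y) (hS : S ≠ y)
    (hNx : N ≠ x) (hWx : W ≠ x) (hEx : E ≠ x) (hSx : S ≠ x)
    (n w e s : Option Lab) (d : Lab)
    (hcons : ∃ a b c : Bool, ok d b c ∧ (∀ l, n = some l → ok l b a) ∧
      (∀ l, w = some l → ok l c a)) :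
    ∃ n' w' e' s' d' : Option Lab, (e = none → e' = none ∧ d' = none) ∧
      (s = none → s' = none ∧ d' = none) ∧
      Sim (M ∪ (lab N x n' ∪ (lab W x w' ∪ (lab x E e' ∪ lab x S s'))) ∪ lab E S d')
        (M ∪ (lab N x n ∪ (lab W x w ∪ (lab x E e ∪ lab x S s))) ∪ lab N W (some d)) := by
  have hM1 : Untouched (M ∪ (lab x E e ∪ lab x S s)) y := by
    simp only [untouched_union]
    exact ⟨hy, untouched_lab _ hxy hE, untouched_lab _ hxy hS⟩
  obtain ⟨α, β, γ, h1⟩ := dy hM1 hxy hN hW n w d hcons
  have hM2 : Untouched (M ∪ (lab N y α ∪ lab W y β)) x := by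
    simp only [untouched_union]
    exact ⟨hx, untouched_lab _ hNx hxy.symm, untouched_lab _ hWx hxy.symm⟩
  obtain ⟨e', s', d', h2, h3, -, h4⟩ := yd hM2 hxy.symm hEx hSx γ e s
  refine ⟨α, β, e', s', d', h2, h3, ?_⟩
  have h5 : Sim (M ∪ (lab N x α ∪ (lab W x β ∪ (lab x E e' ∪ lab x S s'))) ∪ lab E S d')
      (M ∪ (lab N y α ∪ lab W y β) ∪ (lab y E e' ∪ (lab y S s' ∪ lab E S d'))) := by
    have h6 := sim_ren (Equiv.swap x y)
      (M ∪ (lab N y α ∪ lab W y β) ∪ (lab y E e' ∪ (lab y S s' ∪ lab E S d')))
    have h7 : ren (Equiv.swap x y)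
        (M ∪ (lab N y α ∪ lab W y β) ∪ (lab y E e' ∪ (lab y S s' ∪ lab E S d'))) =
        M ∪ (lab N x α ∪ (lab W x β ∪ (lab x E e' ∪ lab x S s'))) ∪ lab E S d' := by
      simp only [ren_union, ren_lab, ren_swap_of_untouched hx hy, Equiv.swap_apply_right,
        Equiv.swap_apply_of_ne_of_ne hNx hN, Equiv.swap_apply_of_ne_of_ne hWx hW,
        Equiv.swap_apply_of_ne_of_ne hEx hE, Equiv.swap_apply_of_ne_of_ne hSx hS]
      simp only [Set.union_assoc]
    rw [h7] at h6
    exact h6
  refine h5.trans (h4.trans ?_)
  have e1 : M ∪ (lab N y α ∪ lab W y β) ∪ (lab y x γ ∪ (lab x E e ∪ lab x S s)) =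
      M ∪ (lab x E e ∪ lab x S s) ∪ (lab N y α ∪ (lab W y β ∪ lab y x γ)) := by
    ext t
    simp only [Set.mem_union]
    tauto
  have e2 : M ∪ (lab N x n ∪ (lab W x w ∪ (lab x E e ∪ lab x S s))) ∪ lab N W (some d) =
      M ∪ (lab x E e ∪ lab x S s) ∪ (lab N W (some d) ∪ (lab N x n ∪ lab W x w)) := by
    ext t
    simp only [Set.mem_union]
    tauto
  rw [e1, e2]
  exact h1

end Pool.Agent.Helper16.OddPack
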