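import Pool.Agent.Helper16.OddPack.Net

/-!
# Local moves on networks
-/

set_option autoImplicit false

namespace Pool.Agent.Helper16.OddPack

variable {P : Type}

/-! ### local equivalences -/

theorem sim_local (N A B : Net P)
    (h : ∀ (U : Set P) (φ : P → Bool), (Satu A U ↔ Satu B U) ∧ (Satu B U → (Con A U φ ↔ Con B U φ))) :
    Sim (N ∪ A) (N ∪ B) := by
  apply sim_of_eqv
  · intro U
    rw [satu_union, satu_union, (h U (fun _ => false)).1]
  · intro U hU φ
    rw [satu_union] at hU
    rw [con_union, con_union, (h U φ).2 hU.2]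

/-! ### renaming -/

def ren (e : Equiv.Perm P) (N : Net P) : Net P := {t | (e.symm t.1, e.symm t.2.1, t.2.2) ∈ N}

theorem mem_ren {e : Equiv.Perm P} {N : Net P} {p q : P} {l : Lab} :
    (p, q, l) ∈ ren e N ↔ (e.symm p, e.symm q, l) ∈ N := Iff.rfl

theorem ren_union (e : Equiv.Perm P) (A B : Net P) : ren e (A ∪ B) = ren e A ∪ ren e B := rfl

theorem ren_lab (e : Equiv.Perm P) (p q : P) (o : Option Lab) :
    ren e (lab p q o) = lab (e p) (e q) o := by
  ext ⟨a, b, l⟩
  rw [mem_ren, mem_lab, mem_lab]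
  simp only [Equiv.symm_apply_eq]

theorem ren_swap_of_untouched [DecidableEq P] {N : Net P} {x y : P} (hx : Untouched N x)
    (hy : Untouched N y) : ren (Equiv.swap x y) N = N := by
  ext ⟨a, b, l⟩
  rw [mem_ren, Equiv.symm_swap]
  constructor
  · intro h
    obtain ⟨h1, h2⟩ := hx _ _ _ h
    obtain ⟨h3, h4⟩ := hy _ _ _ h
    have e1 : a = Equiv.swap x y a := by
      by_cases hax : a = x
      · subst hax; simp at h3
      · by_cases hay : a = y
        · subst hay; simp at h1
        · rw [Equiv.swap_apply_of_ne_of_ne hax hay]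
    have e2 : b = Equiv.swap x y b := by
      by_cases hax : b = x
      · subst hax; simp at h4
      · by_cases hay : b = y
        · subst hay; simp at h2
        · rw [Equiv.swap_apply_of_ne_of_ne hax hay]
    rw [e1, e2]; exact h
  · intro h
    obtain ⟨h1, h2⟩ := hx _ _ _ h
    obtain ⟨h3, h4⟩ := hy _ _ _ h
    rwa [Equiv.swap_apply_of_ne_of_ne h1 h3, Equiv.swap_apply_of_ne_of_ne h2 h4]

theorem sim_ren (e : Equiv.Perm P) (N : Net P) : Sim (ren e N) N := by
  constructor
  · rintro k ⟨U, h1, h2, h3⟩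
    refine ⟨fun i => e ⁻¹' (U i), ?_, ?_, ?_⟩
    · intro i p q hpq
      simp only [Set.mem_preimage]
      apply h1 i
      rw [mem_ren]; simpa using hpq
    · rintro i ⟨φ, hφ⟩
      apply h2 i
      refine ⟨fun p => φ (e.symm p), ?_⟩
      intro p q l hpq hp hq
      exact hφ _ _ l hpq (by simpa using hp) (by simpa using hq)
    · intro i j hij
      exact Disjoint.preimage _ (h3 i j hij)
  · rintro t ⟨D, hD, φ, hφ⟩
    refine ⟨D.map e.symm.toEmbedding, by simpa using hD, fun p => φ (e p), ?_⟩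
    have hsub : cl (ren e N) (D : Set P) ⊆
        {q | e.symm q ∈ cl N ((D.map e.symm.toEmbedding : Finset P) : Set P)} := by
      apply cl_min
      · intro p q hpq
        exact satu_cl N _ _ _ hpq
      · intro d hd
        apply subset_cl
        simp only [Finset.coe_map, Set.mem_image]
        exact ⟨d, hd, rfl⟩
    intro p q l hpq hp hq
    refine hφ (e p) (e q) l (by rw [mem_ren]; simpa using hpq) ?_ ?_
    · intro h
      apply hp
      simpa using hsub h
    · intro h
      apply hq
      simpa using hsub h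

/-! ### bad events -/

theorem bad_event {N : Net P} {D0 : Finset P} (hcard : D0.card ≤ 3)
    (hb : ¬ Bal N (cl N (D0 : Set P)))
    (hg : Good ({t ∈ N | t.2.2 = Lab.inf ∨
      (t.1 ∉ cl N (D0 : Set P) ∧ t.2.1 ∉ cl N (D0 : Set P))} : Net P)) : Good N := by
  classical
  set C := cl N (D0 : Set P) with hC
  set N1 : Net P := {t ∈ N | t.2.2 = Lab.inf ∨ (t.1 ∉ C ∧ t.2.1 ∉ C)} with hN1
  have hsat : ∀ U, Satu N1 U ↔ Satu N U := by
    intro U
    constructor
    · intro h p q hpq
      exact h p q ⟨hpq, Or.inl rfl⟩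
    · intro h p q hpq
      exact h p q hpq.1
  have hCs : Satu N C := satu_cl _ _
  obtain ⟨k, ⟨U, h1, h2, h3⟩, D, hD, φ, hφ⟩ := hg
  refine ⟨k + 1, ⟨Fin.cons C (fun i => U i \ C), ?_, ?_, ?_⟩, D ∪ D0, ?_, φ, ?_⟩
  · intro i
    refine Fin.cases ?_ (fun i => ?_) i
    · exact hCs
    · exact satu_diff ((hsat _).1 (h1 i)) hCs
  · intro i
    refine Fin.cases ?_ (fun i => ?_) i
    · exact hb
    · rintro ⟨ψ, hψ⟩
      apply h2 i
      refine ⟨fun p => if p ∈ C then false else ψ p, ?_⟩
      intro p q l hpq hp hq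
      by_cases hl : l = Lab.inf
      · subst hl
        have hpq' := hCs p q hpq.1
        by_cases hpC : p ∈ C
        · have hqC := hpq'.1 hpC
          simp [ok, hpC, hqC]
        · have hqC : q ∉ C := fun h => hpC (hpq'.2 h)
          simp only [hpC, hqC, if_false]
          exact hψ p q _ hpq.1 ⟨hp, hpC⟩ ⟨hq, hqC⟩
      · obtain ⟨hpC, hqC⟩ := hpq.2.resolve_left hl
        simp only [] at hpC hqC
        simp only [hpC, hqC, if_false]
        exact hψ p q _ hpq.1 ⟨hp, hpC⟩ ⟨hq, hqC⟩
  · intro i j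
    refine Fin.cases ?_ (fun i => ?_) i <;> refine Fin.cases ?_ (fun j => ?_) j
    · intro h; exact absurd rfl h
    · intro _
      simp only [Fin.cons_zero, Fin.cons_succ]
      exact Set.disjoint_sdiff_right
    · intro _
      simp only [Fin.cons_zero, Fin.cons_succ]
      exact Set.disjoint_sdiff_left
    · intro hij
      simp only [Fin.cons_succ]
      exact (h3 i j (fun h => hij (by rw [h]))).mono Set.sdiff_subset Set.sdiff_subset
  · calc (D ∪ D0).card ≤ D.card + D0.card := Finset.card_union_le _ _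
      _ ≤ 3 * k + 3 := Nat.add_le_add hD hcard
      _ = 3 * (k + 1) := by ring
  · have hsub1 : cl N1 (D : Set P) ⊆ cl N ((D ∪ D0 : Finset P) : Set P) := by
      apply cl_min
      · exact (hsat _).2 (satu_cl _ _)
      · intro d hd
        apply subset_cl
        simp only [Finset.coe_union, Set.mem_union]
        left; exact hd
    have hsub2 : C ⊆ cl N ((D ∪ D0 : Finset P) : Set P) := by
      apply cl_min (satu_cl _ _)
      intro d hd
      apply subset_cl
      simp only [Finset.coe_union, Set.mem_union]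
      right; exact hd
    intro p q l hpq hp hq
    exact hφ p q l ⟨hpq, Or.inr ⟨fun h => hp (hsub2 h), fun h => hq (hsub2 h)⟩⟩
      (fun h => hp (hsub1 h)) (fun h => hq (hsub1 h))

def Clean (N : Net P) : Prop := ∀ D0 : Finset P, D0.card ≤ 3 → Bal N (cl N (D0 : Set P))

theorem good_of_clean (F : Net P → Prop)
    (hF : ∀ N N1, F N → N1 ⊆ N → (∀ p q, (p, q, Lab.inf) ∈ N → (p, q, Lab.inf) ∈ N1) → F N1)
    (hfin : ∀ N, F N → ({t ∈ N | t.2.2 ≠ Lab.inf} : Set (P × P × Lab)).Finite)
    (hclean : ∀ N, F N → Clean N → Good N) : ∀ N, F N → Good N := by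
  suffices H : ∀ m : ℕ, ∀ N, F N → ({t ∈ N | t.2.2 ≠ Lab.inf} : Set (P × P × Lab)).ncard = m →
      Good N from fun N hN => H _ N hN rfl
  intro m
  induction m using Nat.strong_induction_on with
  | _ m ih =>
    intro N hN hm
    by_cases hcl : Clean N
    · exact hclean N hN hcl
    · unfold Clean at hcl
      push Not at hcl
      obtain ⟨D0, hD0, hb⟩ := hcl
      apply bad_event hD0 hb
      set N1 : Net P := {t ∈ N | t.2.2 = Lab.inf ∨
        (t.1 ∉ cl N (D0 : Set P) ∧ t.2.1 ∉ cl N (D0 : Set P))} with hN1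
      have hsub : N1 ⊆ N := fun t ht => ht.1
      refine ih _ ?_ N1 (hF N N1 hN hsub fun p q hpq => ⟨hpq, Or.inl rfl⟩) rfl
      rw [← hm]
      apply Set.ncard_lt_ncard _ (hfin N hN)
      refine ⟨fun t ht => ⟨ht.1.1, ht.2⟩, ?_⟩
      intro hsup
      apply hb
      refine ⟨fun _ => false, ?_⟩
      intro p q l hpq hp hq
      by_cases hl : l = Lab.inf
      · subst hl; rfl
      · have := hsup (show (p, q, l) ∈ {t ∈ N | t.2.2 ≠ Lab.inf} from ⟨hpq, hl⟩)
        exact absurd hp (this.1.2.resolve_left hl).1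

end Pool.Agent.Helper16.OddPack
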