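import Pool.Agent.Helper16.OddPack.Defs

/-!
# Networks: signed graphs with contracted edges

A network is a set of labelled edges `(p, q, l)` on a set `P` of positions; `inf` edges are
contracted, `pos`/`neg` edges carry a sign.
-/

set_option autoImplicit false

namespace Pool.Agent.Helper16.OddPack

inductive Lab
  | inf
  | pos
  | neg
  deriving DecidableEq

abbrev Net (P : Type) := Set (P × P × Lab)

def ok : Lab → Bool → Bool → Prop
  | Lab.inf, a, b => a = b
  | Lab.pos, a, b => a = b
  | Lab.neg, a, b => a ≠ b

instance (l : Lab) (a b : Bool) : Decidable (ok l a b) := by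
  cases l <;> unfold ok <;> infer_instance

variable {P : Type}

def Satu (N : Net P) (U : Set P) : Prop := ∀ p q, (p, q, Lab.inf) ∈ N → (p ∈ U ↔ q ∈ U)

def Con (N : Net P) (U : Set P) (φ : P → Bool) : Prop :=
  ∀ p q l, (p, q, l) ∈ N → p ∈ U → q ∈ U → ok l (φ p) (φ q)

def Bal (N : Net P) (U : Set P) : Prop := ∃ φ, Con N U φ

def cl (N : Net P) (D : Set P) : Set P := {p | ∀ V, Satu N V → D ⊆ V → p ∈ V}

def Pack (N : Net P) (k : ℕ) : Prop :=
  ∃ U : Fin k → Set P, (∀ i, Satu N (U i)) ∧ (∀ i, ¬ Bal N (U i)) ∧
    ∀ i j, i ≠ j → Disjoint (U i) (U j)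

def Cov (N : Net P) (t : ℕ) : Prop :=
  ∃ D : Finset P, D.card ≤ t ∧ Bal N (cl N (D : Set P))ᶜ

def Good (N : Net P) : Prop := ∃ k, Pack N k ∧ Cov N (3 * k)

def Untouched (N : Net P) (x : P) : Prop := ∀ p q l, (p, q, l) ∈ N → p ≠ x ∧ q ≠ x

/-! ### basic facts -/

theorem satu_union (A B : Net P) (U : Set P) : Satu (A ∪ B) U ↔ Satu A U ∧ Satu B U := by
  constructor
  · intro h
    exact ⟨fun p q hpq => h p q (Or.inl hpq), fun p q hpq => h p q (Or.inr hpq)⟩
  · rintro ⟨h1, h2⟩ p q (h | h)
    · exact h1 p q h
    · exact h2 p q h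

theorem con_union (A B : Net P) (U : Set P) (φ : P → Bool) :
    Con (A ∪ B) U φ ↔ Con A U φ ∧ Con B U φ := by
  constructor
  · intro h
    exact ⟨fun p q l hpq => h p q l (Or.inl hpq), fun p q l hpq => h p q l (Or.inr hpq)⟩
  · rintro ⟨h1, h2⟩ p q l (h | h)
    · exact h1 p q l h
    · exact h2 p q l h

theorem satu_mono {A B : Net P} (h : A ⊆ B) {U : Set P} (hU : Satu B U) : Satu A U :=
  fun p q hpq => hU p q (h hpq)

theorem con_mono {A B : Net P} (h : A ⊆ B) {U W : Set P} (hUW : U ⊆ W) {φ : P → Bool}
    (hU : Con B W φ) : Con A U φ :=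
  fun p q l hpq hp hq => hU p q l (h hpq) (hUW hp) (hUW hq)

theorem satu_cl (N : Net P) (D : Set P) : Satu N (cl N D) := by
  intro p q h
  constructor
  · intro hp V hV hD
    exact (hV p q h).1 (hp V hV hD)
  · intro hq V hV hD
    exact (hV p q h).2 (hq V hV hD)

theorem subset_cl (N : Net P) (D : Set P) : D ⊆ cl N D := fun _ hp _ _ hD => hD hp

theorem cl_min {N : Net P} {D V : Set P} (hV : Satu N V) (hD : D ⊆ V) : cl N D ⊆ V :=
  fun _ hp => hp V hV hD

theorem satu_compl {N : Net P} {U : Set P} (h : Satu N U) : Satu N Uᶜ := by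
  intro p q hpq
  simp only [Set.mem_compl_iff]
  exact not_congr (h p q hpq)

theorem satu_diff {N : Net P} {U W : Set P} (h : Satu N U) (h' : Satu N W) : Satu N (U \ W) := by
  intro p q hpq
  simp only [Set.mem_sdiff]
  exact and_congr (h p q hpq) (not_congr (h' p q hpq))

theorem cl_congr {N N' : Net P} (h : ∀ U, Satu N U ↔ Satu N' U) (D : Set P) :
    cl N D = cl N' D := by
  ext p
  exact ⟨fun hp V hV hD => hp V ((h V).2 hV) hD, fun hp V hV hD => hp V ((h V).1 hV) hD⟩

/-! ### simulation -/

def Sim (N' N : Net P) : Prop := (∀ k, Pack N' k → Pack N k) ∧ (∀ t, Cov N' t → Cov N t)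

theorem Sim.refl (N : Net P) : Sim N N := ⟨fun _ h => h, fun _ h => h⟩

theorem Sim.trans {A B C : Net P} (h : Sim A B) (h' : Sim B C) : Sim A C :=
  ⟨fun k hk => h'.1 k (h.1 k hk), fun k hk => h'.2 k (h.2 k hk)⟩

theorem Sim.good {N' N : Net P} (h : Sim N' N) (hg : Good N') : Good N := by
  obtain ⟨k, hk, hc⟩ := hg
  exact ⟨k, h.1 k hk, h.2 _ hc⟩

theorem sim_of_eqv {N' N : Net P} (hs : ∀ U, Satu N' U ↔ Satu N U)
    (hc : ∀ U, Satu N U → ∀ φ, Con N' U φ ↔ Con N U φ) : Sim N' N := by
  constructor
  · rintro k ⟨U, h1, h2, h3⟩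
    refine ⟨U, fun i => (hs _).1 (h1 i), fun i hb => h2 i ?_, h3⟩
    obtain ⟨φ, hφ⟩ := hb
    exact ⟨φ, (hc _ ((hs _).1 (h1 i)) φ).2 hφ⟩
  · rintro t ⟨D, hD, φ, hφ⟩
    refine ⟨D, hD, φ, ?_⟩
    rw [← cl_congr hs]
    refine (hc _ ?_ φ).1 hφ
    exact (hs _).1 (satu_compl (satu_cl _ _))

/-! ### labelled edges -/

def lab (p q : P) (o : Option Lab) : Net P := {e | ∃ l, o = some l ∧ e = (p, q, l)}

theorem mem_lab {p q : P} {o : Option Lab} {a b : P} {l : Lab} :
    (a, b, l) ∈ lab p q o ↔ o = some l ∧ a = p ∧ b = q := by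
  constructor
  · rintro ⟨l', h1, h2⟩
    simp only [Prod.mk.injEq] at h2
    obtain ⟨rfl, rfl, rfl⟩ := h2
    exact ⟨h1, rfl, rfl⟩
  · rintro ⟨h1, rfl, rfl⟩
    exact ⟨l, h1, rfl⟩

theorem lab_none (p q : P) : lab p q none = ∅ := by
  ext ⟨a, b, l⟩
  simp [mem_lab]

theorem satu_lab (p q : P) (o : Option Lab) (U : Set P) :
    Satu (lab p q o) U ↔ (o = some Lab.inf → (p ∈ U ↔ q ∈ U)) := by
  constructor
  · intro h ho
    exact h p q (mem_lab.2 ⟨ho, rfl, rfl⟩)
  · intro h a b hab
    obtain ⟨h1, rfl, rfl⟩ := mem_lab.1 hab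
    exact h h1

theorem con_lab (p q : P) (o : Option Lab) (U : Set P) (φ : P → Bool) :
    Con (lab p q o) U φ ↔ ∀ l, o = some l → p ∈ U → q ∈ U → ok l (φ p) (φ q) := by
  constructor
  · intro h l ho
    exact h p q l (mem_lab.2 ⟨ho, rfl, rfl⟩)
  · intro h a b l hab
    obtain ⟨h1, rfl, rfl⟩ := mem_lab.1 hab
    exact h l h1

theorem untouched_union {A B : Net P} {x : P} :
    Untouched (A ∪ B) x ↔ Untouched A x ∧ Untouched B x := by
  constructor
  · intro h
    exact ⟨fun p q l hpq => h p q l (Or.inl hpq), fun p q l hpq => h p q l (Or.inr hpq)⟩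
  · rintro ⟨h1, h2⟩ p q l (h | h)
    · exact h1 p q l h
    · exact h2 p q l h

theorem untouched_lab {p q x : P} (o : Option Lab) (hp : p ≠ x) (hq : q ≠ x) :
    Untouched (lab p q o) x := by
  intro a b l h
  obtain ⟨-, rfl, rfl⟩ := mem_lab.1 h
  exact ⟨hp, hq⟩

theorem con_update {N : Net P} {x : P} [DecidableEq P] (hx : Untouched N x) (U : Set P)
    (φ : P → Bool) (b : Bool) : Con N U (Function.update φ x b) ↔ Con N U φ := by
  constructor
  · intro h p q l hpq hp hq
    have := h p q l hpq hp hq
    obtain ⟨h1, h2⟩ := hx p q l hpq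
    rwa [Function.update_of_ne h1, Function.update_of_ne h2] at this
  · intro h p q l hpq hp hq
    have := h p q l hpq hp hq
    obtain ⟨h1, h2⟩ := hx p q l hpq
    rwa [Function.update_of_ne h1, Function.update_of_ne h2]

/-! ### leaves -/

theorem leaf_attach [DecidableEq P] {N : Net P} {y c : P} (hy : Untouched N y) (hyc : y ≠ c) :
    Sim (N ∪ lab y c (some Lab.inf)) N := by
  constructor
  · rintro k ⟨U, h1, h2, h3⟩
    refine ⟨U, fun i => ((satu_union _ _ _).1 (h1 i)).1, fun i hb => h2 i ?_, h3⟩
    obtain ⟨φ, hφ⟩ := hb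
    refine ⟨Function.update φ y (φ c), ?_⟩
    rw [con_union, con_update hy, con_lab]
    refine ⟨hφ, ?_⟩
    rintro l hl - -
    simp only [Option.some.injEq] at hl
    subst hl
    simp [ok, Function.update_of_ne hyc.symm]
  · rintro t ⟨D, hD, φ, hφ⟩
    classical
    obtain ⟨D', hD', hsub⟩ : ∃ D' : Finset P, D'.card ≤ D.card ∧
        cl (N ∪ lab y c (some Lab.inf)) (D : Set P) ⊆ cl N (D' : Set P) ∪ {y} := by
      by_cases hyD : y ∈ D
      · refine ⟨insert c (D.erase y), ?_, ?_⟩
        · calc (insert c (D.erase y)).card ≤ (D.erase y).card + 1 := Finset.card_insert_le _ _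
            _ = D.card := Finset.card_erase_add_one hyD
        · set V := cl N ((insert c (D.erase y) : Finset P) : Set P) with hV
          have hVs : Satu N V := satu_cl _ _
          have hcV : c ∈ V := subset_cl _ _ (by simp)
          apply cl_min
          · rw [satu_union, satu_lab]
            refine ⟨?_, fun _ => ?_⟩
            · intro p q hpq
              obtain ⟨hp, hq⟩ := hy p q _ hpq
              simp only [Set.union_singleton, Set.mem_insert_iff, hp, hq, false_or]
              exact hVs p q hpq
            · simp [hcV]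
          · intro d hd
            by_cases hdy : d = y
            · right; exact hdy
            · left
              exact subset_cl _ _ (by
                simp only [Finset.coe_insert, Finset.coe_erase, Set.mem_insert_iff, Set.mem_sdiff,
                  Set.mem_singleton_iff]
                right; exact ⟨hd, hdy⟩)
      · refine ⟨D, le_rfl, ?_⟩
        set V := cl N (D : Set P) with hV
        have hVs : Satu N V := satu_cl _ _
        have key : cl (N ∪ lab y c (some Lab.inf)) (D : Set P) ⊆
            {p | (p ≠ y ∧ p ∈ V) ∨ (p = y ∧ c ∈ V)} := by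
          apply cl_min
          · rw [satu_union, satu_lab]
            refine ⟨?_, fun _ => ?_⟩
            · intro p q hpq
              obtain ⟨hp, hq⟩ := hy p q _ hpq
              simp only [Set.mem_ofPred_eq, hp, hq, ne_eq, not_false_eq_true, true_and, false_and,
                or_false]
              exact hVs p q hpq
            · simp [hyc.symm]
          · intro d hd
            left
            refine ⟨?_, subset_cl _ _ hd⟩
            rintro rfl
            exact hyD hd
        intro p hp
        rcases key hp with ⟨_, h⟩ | ⟨h, _⟩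
        · left; exact h
        · right; exact h
    refine ⟨D', hD'.trans hD, φ, ?_⟩
    intro p q l hpq hp hq
    obtain ⟨hpy, hqy⟩ := hy p q l hpq
    refine hφ p q l (Or.inl hpq) ?_ ?_
    · intro h
      rcases hsub h with h | h
      · exact hp h
      · exact hpy h
    · intro h
      rcases hsub h with h | h
      · exact hq h
      · exact hqy h

theorem leaf_detach [DecidableEq P] {N : Net P} {y c : P} (hy : Untouched N y) (hyc : y ≠ c) :
    Sim N (N ∪ lab y c (some Lab.inf)) := by
  constructor
  · rintro k ⟨U, h1, h2, h3⟩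
    refine ⟨fun i => {p | (p ≠ y ∧ p ∈ U i) ∨ (p = y ∧ c ∈ U i)}, ?_, ?_, ?_⟩
    · intro i
      rw [satu_union, satu_lab]
      refine ⟨?_, fun _ => ?_⟩
      · intro p q hpq
        obtain ⟨hp, hq⟩ := hy p q _ hpq
        simp only [Set.mem_ofPred_eq, hp, hq, ne_eq, not_false_eq_true, true_and, false_and,
          or_false]
        exact h1 i p q hpq
      · simp [hyc.symm]
    · rintro i ⟨φ, hφ⟩
      apply h2 i
      refine ⟨φ, ?_⟩
      intro p q l hpq hp hq
      obtain ⟨hpy, hqy⟩ := hy p q l hpq
      exact hφ p q l (Or.inl hpq) (Or.inl ⟨hpy, hp⟩) (Or.inl ⟨hqy, hq⟩)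
    · intro i j hij
      have := h3 i j hij
      rw [Set.disjoint_left] at this ⊢
      rintro p (⟨hp, hpi⟩ | ⟨hp, hpi⟩) (⟨hq, hqi⟩ | ⟨hq, hqi⟩)
      · exact this hpi hqi
      · exact hp hq
      · exact hq hp
      · exact this hpi hqi
  · rintro t ⟨D, hD, φ, hφ⟩
    refine ⟨D, hD, Function.update φ y (φ c), ?_⟩
    rw [con_union, con_update hy, con_lab]
    constructor
    · refine con_mono (Set.Subset.refl _) ?_ hφ
      rw [Set.compl_subset_compl]
      apply cl_min
      · exact ((satu_union _ _ _).1 (satu_cl _ _)).1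
      · exact subset_cl _ _
    · rintro l hl - -
      simp only [Option.some.injEq] at hl
      subst hl
      simp [ok, Function.update_of_ne hyc.symm]

/-! ### stars and triangles -/

def sg (b : Bool) : Lab := if b then Lab.neg else Lab.pos

theorem ok_sg (s a b : Bool) : ok (sg s) a b ↔ b = xor a s := by
  cases s <;> cases a <;> cases b <;> simp [sg, ok]

theorem sg_ne_inf (s : Bool) : sg s ≠ Lab.inf := by
  cases s <;> simp [sg]

def leg (p q : P) (o : Option Bool) : Net P := lab p q (o.map sg)

theorem satu_leg (p q : P) (o : Option Bool) (U : Set P) : Satu (leg p q o) U := by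
  unfold leg
  rw [satu_lab]
  intro h
  rcases o with - | s
  · simp at h
  · simp only [Option.map_some, Option.some.injEq] at h
    exact absurd h (sg_ne_inf s)

theorem con_leg (p q : P) (o : Option Bool) (U : Set P) (φ : P → Bool) :
    Con (leg p q o) U φ ↔ ∀ s, o = some s → p ∈ U → q ∈ U → φ q = xor (φ p) s := by
  unfold leg
  rw [con_lab]
  constructor
  · intro h s hs hp hq
    have := h (sg s) (by simp [hs]) hp hq
    exact (ok_sg _ _ _).1 this
  · intro h l hl hp hq
    rcases o with - | s
    · simp at hl
    · simp only [Option.map_some, Option.some.injEq] at hl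
      subst hl
      exact (ok_sg _ _ _).2 (h s rfl hp hq)

def mul : Option Bool → Option Bool → Option Bool
  | some x, some y => some (xor x y)
  | _, _ => none

def star (x a b c : P) (α β γ : Option Bool) : Net P := leg x a α ∪ (leg x b β ∪ leg x c γ)

def tri (a b c : P) (α β γ : Option Bool) : Net P :=
  leg a b (mul α β) ∪ (leg b c (mul β γ) ∪ leg a c (mul α γ))

theorem satu_star (N : Net P) (x a b c : P) (α β γ : Option Bool) (U : Set P) :
    Satu (N ∪ star x a b c α β γ) U ↔ Satu N U := by
  unfold star
  simp only [satu_union]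
  exact ⟨fun h => h.1, fun h => ⟨h, satu_leg _ _ _ _, satu_leg _ _ _ _, satu_leg _ _ _ _⟩⟩

theorem satu_tri (N : Net P) (a b c : P) (α β γ : Option Bool) (U : Set P) :
    Satu (N ∪ tri a b c α β γ) U ↔ Satu N U := by
  unfold tri
  simp only [satu_union]
  exact ⟨fun h => h.1, fun h => ⟨h, satu_leg _ _ _ _, satu_leg _ _ _ _, satu_leg _ _ _ _⟩⟩

/-- if the star constraints hold (with `x` in the set) then the triangle constraints hold -/
theorem tri_of_star {x a b c : P} {α β γ : Option Bool} {U : Set P} {φ : P → Bool}
    (h : Con (star x a b c α β γ) (insert x U) φ) : Con (tri a b c α β γ) U φ := by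
  unfold star at h
  unfold tri
  simp only [con_union, con_leg] at h ⊢
  obtain ⟨h1, h2, h3⟩ := h
  have hx : x ∈ insert x U := Set.mem_insert _ _
  refine ⟨?_, ?_, ?_⟩
  · intro s hs ha hb
    rcases α with - | α <;> rcases β with - | β <;> simp [mul] at hs
    have e1 := h1 α rfl hx (Set.mem_insert_of_mem _ ha)
    have e2 := h2 β rfl hx (Set.mem_insert_of_mem _ hb)
    rw [e1, e2, ← hs]
    cases φ x <;> cases α <;> cases β <;> rfl
  · intro s hs ha hb
    rcases β with - | β <;> rcases γ with - | γ <;> simp [mul] at hs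
    have e1 := h2 β rfl hx (Set.mem_insert_of_mem _ ha)
    have e2 := h3 γ rfl hx (Set.mem_insert_of_mem _ hb)
    rw [e1, e2, ← hs]
    cases φ x <;> cases γ <;> cases β <;> rfl
  · intro s hs ha hb
    rcases α with - | α <;> rcases γ with - | γ <;> simp [mul] at hs
    have e1 := h1 α rfl hx (Set.mem_insert_of_mem _ ha)
    have e2 := h3 γ rfl hx (Set.mem_insert_of_mem _ hb)
    rw [e1, e2, ← hs]
    cases φ x <;> cases γ <;> cases α <;> rfl

/-- if the triangle constraints hold then `φ x` can be chosen so that the star constraints hold -/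
theorem star_of_tri [DecidableEq P] {x a b c : P} (hxa : x ≠ a) (hxb : x ≠ b) (hxc : x ≠ c)
    {α β γ : Option Bool} {U : Set P} {φ : P → Bool}
    (h : Con (tri a b c α β γ) U φ) :
    ∃ v : Bool, Con (star x a b c α β γ) (insert x U) (Function.update φ x v) := by
  unfold tri at h
  unfold star
  simp only [con_union, con_leg] at h ⊢
  obtain ⟨h1, h2, h3⟩ := h
  have hmem : ∀ {z : P}, x ≠ z → z ∈ insert x U → z ∈ U := by
    intro z hz hz'
    rcases hz' with h | h
    · exact absurd h.symm hz
    · exact h
  simp only [Function.update_self, Function.update_of_ne hxa.symm, Function.update_of_ne hxb.symm,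
    Function.update_of_ne hxc.symm]
  -- choose the value from the first present leg
  by_cases ha : α.isSome ∧ a ∈ U
  · obtain ⟨ha1, haU⟩ := ha
    obtain ⟨s, hs⟩ := Option.isSome_iff_exists.1 ha1
    subst hs
    refine ⟨xor (φ a) s, ?_, ?_, ?_⟩
    · intro t ht _ _
      simp only [Option.some.injEq] at ht
      subst ht
      cases φ a <;> cases s <;> rfl
    · intro t ht _ hb
      have := h1 (xor s t) (by simp [mul, ht]) haU (hmem hxb hb)
      rw [this]
      cases φ a <;> cases s <;> cases t <;> rfl
    · intro t ht _ hc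
      have := h3 (xor s t) (by simp [mul, ht]) haU (hmem hxc hc)
      rw [this]
      cases φ a <;> cases s <;> cases t <;> rfl
  · by_cases hb : β.isSome ∧ b ∈ U
    · obtain ⟨hb1, hbU⟩ := hb
      obtain ⟨s, hs⟩ := Option.isSome_iff_exists.1 hb1
      subst hs
      refine ⟨xor (φ b) s, ?_, ?_, ?_⟩
      · intro t ht _ haU
        exact absurd ⟨by simp [ht], hmem hxa haU⟩ ha
      · intro t ht _ _
        simp only [Option.some.injEq] at ht
        subst ht
        cases φ b <;> cases s <;> rfl
      · intro t ht _ hc
        have := h2 (xor s t) (by simp [mul, ht]) hbU (hmem hxc hc)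
        rw [this]
        cases φ b <;> cases s <;> cases t <;> rfl
    · by_cases hc : γ.isSome ∧ c ∈ U
      · obtain ⟨hc1, hcU⟩ := hc
        obtain ⟨s, hs⟩ := Option.isSome_iff_exists.1 hc1
        subst hs
        refine ⟨xor (φ c) s, ?_, ?_, ?_⟩
        · intro t ht _ haU
          exact absurd ⟨by simp [ht], hmem hxa haU⟩ ha
        · intro t ht _ hbU
          exact absurd ⟨by simp [ht], hmem hxb hbU⟩ hb
        · intro t ht _ _
          simp only [Option.some.injEq] at ht
          subst ht
          cases φ c <;> cases s <;> rfl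
      · refine ⟨false, ?_, ?_, ?_⟩
        · intro t ht _ haU
          exact absurd ⟨by simp [ht], hmem hxa haU⟩ ha
        · intro t ht _ hbU
          exact absurd ⟨by simp [ht], hmem hxb hbU⟩ hb
        · intro t ht _ hcU
          exact absurd ⟨by simp [ht], hmem hxc hcU⟩ hc

/-- eliminating a vertex with at most three signed legs -/
theorem sim_tri_star [DecidableEq P] {N : Net P} {x a b c : P} (hx : Untouched N x) (hxa : x ≠ a)
    (hxb : x ≠ b) (hxc : x ≠ c) (α β γ : Option Bool) :
    Sim (N ∪ tri a b c α β γ) (N ∪ star x a b c α β γ) := by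
  constructor
  · rintro k ⟨U, h1, h2, h3⟩
    classical
    -- `x` is added to the class that contains at least two of the three feet
    let two : Fin k → Prop := fun i =>
      (a ∈ U i ∧ b ∈ U i) ∨ (b ∈ U i ∧ c ∈ U i) ∨ (a ∈ U i ∧ c ∈ U i)
    refine ⟨fun i => {p | (p ≠ x ∧ p ∈ U i) ∨ (p = x ∧ two i)}, ?_, ?_, ?_⟩
    · intro i
      rw [satu_star]
      intro p q hpq
      obtain ⟨hp, hq⟩ := hx p q _ hpq
      simp only [Set.mem_ofPred_eq, hp, hq, ne_eq, not_false_eq_true, true_and, false_and,
        or_false]
      exact (satu_tri _ _ _ _ _ _ _ _).1 (h1 i) p q hpq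
    · rintro i ⟨φ, hφ⟩
      apply h2 i
      rw [con_union] at hφ
      have hN : Con N (U i) φ := by
        intro p q l hpq hp hq
        obtain ⟨hpx, hqx⟩ := hx p q l hpq
        exact hφ.1 p q l hpq (Or.inl ⟨hpx, hp⟩) (Or.inl ⟨hqx, hq⟩)
      by_cases ht : two i
      · refine ⟨φ, ?_⟩
        rw [con_union]
        refine ⟨hN, ?_⟩
        have h5 : Con (star x a b c α β γ) (insert x (U i \ {x})) φ := by
          refine con_mono (Set.Subset.refl _) ?_ hφ.2
          intro p hp
          rcases hp with rfl | hp
          · right; exact ⟨rfl, ht⟩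
          · left; exact ⟨hp.2, hp.1⟩
        have h6 := tri_of_star h5
        -- the triangle does not touch `x`
        unfold tri at h6 ⊢
        simp only [con_union, con_leg] at h6 ⊢
        refine ⟨fun s hs h h' => h6.1 s hs ⟨h, fun e => hxa e.symm⟩ ⟨h', fun e => hxb e.symm⟩,
          fun s hs h h' => h6.2.1 s hs ⟨h, fun e => hxb e.symm⟩ ⟨h', fun e => hxc e.symm⟩,
          fun s hs h h' => h6.2.2 s hs ⟨h, fun e => hxa e.symm⟩ ⟨h', fun e => hxc e.symm⟩⟩
      · refine ⟨φ, ?_⟩
        rw [con_union]
        refine ⟨hN, ?_⟩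
        unfold tri
        simp only [con_union, con_leg]
        refine ⟨fun s hs h h' => absurd (Or.inl ⟨h, h'⟩) ht,
          fun s hs h h' => absurd (Or.inr (Or.inl ⟨h, h'⟩)) ht,
          fun s hs h h' => absurd (Or.inr (Or.inr ⟨h, h'⟩)) ht⟩
    · intro i j hij
      have h := h3 i j hij
      rw [Set.disjoint_left] at h ⊢
      rintro p (⟨hp, hpi⟩ | ⟨hp, hpi⟩) (⟨hq, hqi⟩ | ⟨hq, hqi⟩)
      · exact h hpi hqi
      · exact hp hq
      · exact hq hp
      · rcases hpi with ⟨h4, h5⟩ | ⟨h4, h5⟩ | ⟨h4, h5⟩ <;>
          rcases hqi with ⟨h6, h7⟩ | ⟨h6, h7⟩ | ⟨h6, h7⟩ <;>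
          first
          | exact h h4 h6
          | exact h h4 h7
          | exact h h5 h6
          | exact h h5 h7
  · rintro t ⟨D, hD, φ, hφ⟩
    have hcl : cl (N ∪ tri a b c α β γ) (D : Set P) = cl (N ∪ star x a b c α β γ) (D : Set P) :=
      cl_congr (fun U => by rw [satu_tri, satu_star]) _
    rw [hcl] at hφ
    rw [con_union] at hφ
    obtain ⟨v, hv⟩ := star_of_tri hxa hxb hxc hφ.2
    refine ⟨D, hD, Function.update φ x v, ?_⟩
    rw [con_union]
    refine ⟨(con_update hx _ _ _).2 hφ.1, ?_⟩
    exact con_mono (Set.Subset.refl _) (Set.subset_insert _ _) hv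

/-- replacing a positive triangle by a star with a new centre -/
theorem sim_star_tri [DecidableEq P] {N : Net P} {x a b c : P} (hx : Untouched N x) (hxa : x ≠ a)
    (hxb : x ≠ b) (hxc : x ≠ c) (α β γ : Bool) :
    Sim (N ∪ star x a b c (some α) (some β) (some γ))
      (N ∪ tri a b c (some α) (some β) (some γ)) := by
  constructor
  · rintro k ⟨U, h1, h2, h3⟩
    refine ⟨U, ?_, ?_, h3⟩
    · intro i
      rw [satu_tri]
      exact (satu_star _ _ _ _ _ _ _ _ _).1 (h1 i)
    · rintro i ⟨φ, hφ⟩
      apply h2 i
      rw [con_union] at hφ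
      obtain ⟨v, hv⟩ := star_of_tri hxa hxb hxc hφ.2
      refine ⟨Function.update φ x v, ?_⟩
      rw [con_union]
      exact ⟨(con_update hx _ _ _).2 hφ.1,
        con_mono (Set.Subset.refl _) (Set.subset_insert _ _) hv⟩
  · rintro t ⟨D, hD, φ, hφ⟩
    classical
    have hcl : ∀ D : Set P, cl (N ∪ tri a b c (some α) (some β) (some γ)) D =
        cl (N ∪ star x a b c (some α) (some β) (some γ)) D :=
      fun D => cl_congr (fun U => by rw [satu_tri, satu_star]) _
    by_cases hxD : x ∈ (cl (N ∪ star x a b c (some α) (some β) (some γ)) (D : Set P))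
    · -- then `x ∈ D`
      have hxD' : x ∈ D := by
        by_contra hx'
        have : x ∈ ({x}ᶜ : Set P) := by
          apply hxD
          · rw [satu_star]
            intro p q hpq
            obtain ⟨h4, h5⟩ := hx p q _ hpq
            simp [h4, h5]
          · intro d hd
            simp only [Set.mem_compl_iff, Set.mem_singleton_iff]
            rintro rfl
            exact hx' hd
        exact this rfl
      -- choose the minority foot
      rw [con_union] at hφ
      have main : ∀ z : P, x ≠ z → (∀ W : Set P, z ∉ W →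
          Con (tri a b c (some α) (some β) (some γ)) W φ) →
          Cov (N ∪ tri a b c (some α) (some β) (some γ)) t := by
        intro z hz hW
        refine ⟨insert z (D.erase x), ?_, φ, ?_⟩
        · calc (insert z (D.erase x)).card ≤ (D.erase x).card + 1 := Finset.card_insert_le _ _
            _ = D.card := Finset.card_erase_add_one hxD'
            _ ≤ t := hD
        · rw [con_union]
          constructor
          · intro p q l hpq hp hq
            obtain ⟨hpx, hqx⟩ := hx p q l hpq
            have hsub : cl (N ∪ star x a b c (some α) (some β) (some γ)) (D : Set P) ⊆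
                cl (N ∪ tri a b c (some α) (some β) (some γ))
                  ((insert z (D.erase x) : Finset P) : Set P) ∪ {x} := by
              apply cl_min
              · rw [satu_star]
                intro p q hpq
                obtain ⟨h4, h5⟩ := hx p q _ hpq
                simp only [Set.union_singleton, Set.mem_insert_iff, h4, h5, false_or]
                exact satu_cl _ _ p q (Or.inl hpq)
              · intro d hd
                by_cases hdx : d = x
                · right; exact hdx
                · left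
                  apply subset_cl
                  simp only [Finset.coe_insert, Finset.coe_erase, Set.mem_insert_iff,
                    Set.mem_sdiff, Set.mem_singleton_iff]
                  right; exact ⟨hd, hdx⟩
            refine hφ.1 p q l hpq ?_ ?_
            · intro h
              rcases hsub h with h | h
              · exact hp h
              · exact hpx h
            · intro h
              rcases hsub h with h | h
              · exact hq h
              · exact hqx h
          · apply hW
            intro h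
            exact h (subset_cl _ _ (by simp))
      by_cases e1 : xor (φ a) α = xor (φ b) β
      · apply main c hxc
        intro W hcW
        unfold tri
        simp only [con_union, con_leg]
        refine ⟨?_, fun s hs h h' => absurd h' hcW, fun s hs h h' => absurd h' hcW⟩
        intro s hs _ _
        simp only [mul, Option.some.injEq] at hs
        subst hs
        revert e1
        cases φ a <;> cases φ b <;> cases α <;> cases β <;> simp
      · by_cases e2 : xor (φ b) β = xor (φ c) γ
        · apply main a hxa
          intro W haW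
          unfold tri
          simp only [con_union, con_leg]
          refine ⟨fun s hs h h' => absurd h haW, ?_, fun s hs h h' => absurd h haW⟩
          intro s hs _ _
          simp only [mul, Option.some.injEq] at hs
          subst hs
          revert e2
          cases φ c <;> cases φ b <;> cases γ <;> cases β <;> simp
        · apply main b hxb
          intro W hbW
          unfold tri
          simp only [con_union, con_leg]
          refine ⟨fun s hs h h' => absurd h' hbW, fun s hs h h' => absurd h hbW, ?_⟩
          intro s hs _ _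
          simp only [mul, Option.some.injEq] at hs
          subst hs
          revert e1 e2
          cases φ a <;> cases φ c <;> cases φ b <;> cases γ <;> cases β <;> cases α <;> simp
    · refine ⟨D, hD, φ, ?_⟩
      rw [hcl, con_union]
      rw [con_union] at hφ
      refine ⟨hφ.1, ?_⟩
      apply tri_of_star (x := x)
      rw [Set.insert_eq_of_mem hxD]
      exact hφ.2

end Pool.Agent.Helper16.OddPack
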