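import Pool.Agent.Helper16.OddPack.Defs

/-!
# Harary's lemma: if all cycles are positive there is a potential
-/

set_option autoImplicit false

namespace Pool.Agent.Helper16.OddPack

open SimpleGraph

variable {V : Type}

def wsum (σ : Sym2 V → ZMod 2) {H : SimpleGraph V} {u v : V} (p : H.Walk u v) : ZMod 2 :=
  (p.edges.map σ).sum

theorem wsum_nil (σ : Sym2 V → ZMod 2) {H : SimpleGraph V} (u : V) :
    wsum σ (Walk.nil : H.Walk u u) = 0 := by simp [wsum]

theorem wsum_cons (σ : Sym2 V → ZMod 2) {H : SimpleGraph V} {u v w : V} (h : H.Adj u v)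
    (p : H.Walk v w) : wsum σ (Walk.cons h p) = σ s(u, v) + wsum σ p := by simp [wsum]

theorem wsum_append (σ : Sym2 V → ZMod 2) {H : SimpleGraph V} {u v w : V} (p : H.Walk u v)
    (q : H.Walk v w) : wsum σ (p.append q) = wsum σ p + wsum σ q := by simp [wsum]

theorem wsum_reverse (σ : Sym2 V → ZMod 2) {H : SimpleGraph V} {u v : V} (p : H.Walk u v) :
    wsum σ p.reverse = wsum σ p := by
  simp [wsum, List.sum_reverse]

theorem zmod2_add_self (a : ZMod 2) : a + a = 0 := CharTwo.add_self_eq_zero a

/-- a path from `v` to `u` which contains the edge `uv` is that edge -/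
theorem wsum_of_mem_edges (σ : Sym2 V → ZMod 2) {H : SimpleGraph V} {u v : V} (p : H.Walk v u)
    (hp : p.IsPath) (he : s(u, v) ∈ p.edges) : wsum σ p = σ s(u, v) := by
  cases p with
  | nil => simp at he
  | cons h q =>
    rename_i w
    rw [Walk.cons_isPath_iff] at hp
    rw [Walk.edges_cons, List.mem_cons] at he
    rcases he with he | he
    · have hw : w = u := by
        rw [Sym2.eq_iff] at he
        rcases he with ⟨h1, h2⟩ | ⟨h1, h2⟩
        · subst h1; exact absurd h2 (fun h3 => by subst h3; exact h.ne rfl)
        · exact h1.symm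
      subst hw
      have hq : q = Walk.nil := by
        exact Walk.eq_nil_iff_nil.2 (Walk.isPath_iff_nil.1 hp.1)
      subst hq
      rw [wsum_cons, wsum_nil, add_zero, Sym2.eq_swap]
    · exact absurd (Walk.snd_mem_support_of_mem_edges q he) hp.2

theorem wsum_bypass [DecidableEq V] (σ : Sym2 V → ZMod 2) {H : SimpleGraph V}
    (hc : ∀ (v : V) (c : H.Walk v v), c.IsCycle → wsum σ c = 0) {u v : V} (p : H.Walk u v) :
    wsum σ p = wsum σ p.bypass := by
  induction p with
  | nil => simp [Walk.bypass]
  | @cons u w v h p ih =>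
    rw [wsum_cons, ih]
    conv_rhs => rw [Walk.bypass]
    split_ifs with hs
    · have e1 : wsum σ p.bypass = wsum σ (p.bypass.takeUntil u hs) +
          wsum σ (p.bypass.dropUntil u hs) := by
        rw [← wsum_append, Walk.take_spec]
      have hpath : (p.bypass.takeUntil u hs).IsPath := (Walk.bypass_isPath p).takeUntil hs
      have e2 : σ s(u, w) + wsum σ (p.bypass.takeUntil u hs) = 0 := by
        by_cases he : s(u, w) ∈ (p.bypass.takeUntil u hs).edges
        · rw [wsum_of_mem_edges σ _ hpath he]
          exact zmod2_add_self _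
        · have hcyc : (Walk.cons h (p.bypass.takeUntil u hs)).IsCycle :=
            (Walk.cons_isCycle_iff _ h).2 ⟨hpath, he⟩
          have := hc _ _ hcyc
          rwa [wsum_cons] at this
      rw [e1, ← add_assoc, e2, zero_add]
    · rw [wsum_cons]

theorem wsum_closed [DecidableEq V] (σ : Sym2 V → ZMod 2) {H : SimpleGraph V}
    (hc : ∀ (v : V) (c : H.Walk v v), c.IsCycle → wsum σ c = 0) {u : V} (p : H.Walk u u) :
    wsum σ p = 0 := by
  rw [wsum_bypass σ hc p, Walk.eq_nil_iff_nil.2 (Walk.isPath_iff_nil.1 (Walk.bypass_isPath p)),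
    wsum_nil]

theorem exists_potential (σ : Sym2 V → ZMod 2) (H : SimpleGraph V)
    (hc : ∀ (v : V) (c : H.Walk v v), c.IsCycle → wsum σ c = 0) :
    ∃ ψ : V → ZMod 2, ∀ u v, H.Adj u v → ψ v = ψ u + σ s(u, v) := by
  classical
  have hr : ∀ v : V, H.Reachable (H.connectedComponentMk v).out v := by
    intro v
    have : H.connectedComponentMk ((H.connectedComponentMk v).out) = H.connectedComponentMk v :=
      Quot.out_eq _
    exact ConnectedComponent.exact this
  refine ⟨fun v => wsum σ (hr v).some, ?_⟩
  intro u v huv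
  have e1 : H.connectedComponentMk u = H.connectedComponentMk v :=
    ConnectedComponent.sound huv.reachable
  -- compare two walks from the same root
  have key : ∀ (r r' : V) (h : r = r') (p : H.Walk r u) (q : H.Walk r' v),
      wsum σ q = wsum σ p + σ s(u, v) := by
    intro r r' h p q
    subst h
    have := wsum_closed σ hc ((p.append (Walk.cons huv Walk.nil)).append q.reverse)
    rw [wsum_append, wsum_append, wsum_cons, wsum_nil, wsum_reverse, add_zero] at this
    have h2 := zmod2_add_self (wsum σ q)
    calc wsum σ q = 0 + wsum σ q := by rw [zero_add]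
      _ = wsum σ p + σ s(u, v) + wsum σ q + wsum σ q := by rw [this]
      _ = wsum σ p + σ s(u, v) := by rw [add_assoc, h2, add_zero]
  exact key _ _ (by rw [e1]) _ _

end Pool.Agent.Helper16.OddPack
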