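import Pool.Agent.Helper16.OddPack.Grid
import Pool.Agent.Helper16.OddPack.Potential

/-!
# From grid networks to signed minors of grids
-/

set_option autoImplicit false

namespace Pool.Agent.Helper16.OddPack

open SimpleGraph

def zb (b : Bool) : ZMod 2 := if b then 1 else 0

def bz (z : ZMod 2) : Bool := decide (z = 1)

theorem zb_bz (z : ZMod 2) : zb (bz z) = z := by
  fin_cases z <;> rfl

theorem bz_zb (b : Bool) : bz (zb b) = b := by cases b <;> rfl

theorem zb_xor (a b : Bool) : zb (xor a b) = zb a + zb b := by
  cases a <;> cases b <;> decide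

theorem bz_add (a b : ZMod 2) : bz (a + b) = xor (bz a) (bz b) := by
  fin_cases a <;> fin_cases b <;> rfl

variable {V : Type}

theorem gridAdj_cases {a b : ℕ × ℕ} (h : GridAdj a b) :
    (b = (a.1, a.2 + 1) ∨ b = (a.1 + 1, a.2)) ∨ (a = (b.1, b.2 + 1) ∨ a = (b.1 + 1, b.2)) := by
  obtain ⟨a1, a2⟩ := a
  obtain ⟨b1, b2⟩ := b
  unfold GridAdj at h
  simp only [Prod.mk.injEq] at h ⊢
  omega

theorem negCycle_pack (G : SimpleGraph V) [Fintype V] (σ : Sym2 V → ZMod 2) (hG : GridMinor G) :
    ∃ (k : ℕ) (b : Fin k → V) (C : ∀ i : Fin k, G.Walk (b i) (b i)),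
        (∀ i : Fin k, (C i).IsCycle ∧ ((C i).edges.map σ).sum = 1) ∧
        (∀ i j : Fin k, i ≠ j → ∀ x ∈ (C i).support, x ∉ (C j).support) ∧
        ∃ S : Finset V, S.card ≤ 3 * k ∧
          ∀ (v : V) (c : G.Walk v v), c.IsCycle → (c.edges.map σ).sum = 1 →
            ∃ x ∈ S, x ∈ c.support := by
  classical
  obtain ⟨n, B, hBn, hBne, hBc, hBd, hBa⟩ := hG
  -- the owner of a position
  let own : ℕ × ℕ → Option V := fun p => if h : ∃ v, p ∈ B v then some h.choose else none
  have own_eq : ∀ p v, own p = some v ↔ p ∈ B v := by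
    intro p v
    constructor
    · intro h
      by_cases hp : ∃ v, p ∈ B v
      · simp only [own, dif_pos hp, Option.some.injEq] at h
        rw [← h]; exact hp.choose_spec
      · simp only [own, dif_neg hp] at h
        exact absurd h (by simp)
    · intro h
      have hp : ∃ v, p ∈ B v := ⟨v, h⟩
      simp only [own, dif_pos hp, Option.some.injEq]
      by_contra hne
      exact Set.disjoint_left.1 (hBd _ _ hne) hp.choose_spec h
  let lb : ℕ × ℕ → ℕ × ℕ → Option Lab := fun p q =>
    match own p, own q with
    | some u, some v => if u = v then some Lab.inf else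
        if G.Adj u v then some (sg (bz (σ s(u, v)))) else none
    | _, _ => none
  have lb_same : ∀ p q v, p ∈ B v → q ∈ B v → lb p q = some Lab.inf := by
    intro p q v hp hq
    have e1 := (own_eq p v).2 hp
    have e2 := (own_eq q v).2 hq
    simp only [lb, e1, e2, if_true]
  have lb_adj : ∀ p q u v, p ∈ B u → q ∈ B v → G.Adj u v →
      lb p q = some (sg (bz (σ s(u, v)))) := by
    intro p q u v hp hq huv
    have e1 := (own_eq p u).2 hp
    have e2 := (own_eq q v).2 hq
    simp only [lb, e1, e2, if_neg huv.ne, if_pos huv]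
  have lb_some : ∀ p q l, lb p q = some l → ∃ u v, p ∈ B u ∧ q ∈ B v ∧
      ((u = v ∧ l = Lab.inf) ∨ (G.Adj u v ∧ l = sg (bz (σ s(u, v))))) := by
    intro p q l h
    rcases e1 : own p with - | u
    · simp only [lb, e1] at h
      exact absurd h (by simp)
    · rcases e2 : own q with - | v
      · simp only [lb, e1, e2] at h
        exact absurd h (by simp)
      · refine ⟨u, v, (own_eq _ _).1 e1, (own_eq _ _).1 e2, ?_⟩
        simp only [lb, e1, e2] at h
        split_ifs at h with h1 h2
        · left; simp only [Option.some.injEq] at h; exact ⟨h1, h.symm⟩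
        · right; simp only [Option.some.injEq] at h; exact ⟨h2, h.symm⟩
  have lb_symm : ∀ p q, lb p q = lb q p := by
    intro p q
    rcases e1 : own p with - | u <;> rcases e2 : own q with - | v
    · simp only [lb, e1, e2]
    · simp only [lb, e1, e2]
    · simp only [lb, e1, e2]
    · simp only [lb, e1, e2]
      by_cases h1 : u = v
      · rw [if_pos h1, if_pos h1.symm]
      · have h1' : ¬ v = u := fun h => h1 h.symm
        rw [if_neg h1, if_neg h1']
        by_cases h2 : G.Adj u v
        · rw [if_pos h2, if_pos h2.symm, Sym2.eq_swap]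
        · have h2' : ¬ G.Adj v u := fun h => h2 h.symm
          rw [if_neg h2, if_neg h2']
  let h : ℕ → ℕ → Option Lab := fun i j => lb (i, j) (i, j + 1)
  let v : ℕ → ℕ → Option Lab := fun i j => lb (i, j) (i + 1, j)
  have hreg : Reg n h v := by
    intro i j
    constructor
    · intro hne
      obtain ⟨l, hl⟩ := Option.ne_none_iff_exists'.1 hne
      obtain ⟨u, w, hu, hw, -⟩ := lb_some _ _ _ hl
      exact ⟨(hBn _ _ hu).1, (hBn _ _ hw).2⟩
    · intro hne
      obtain ⟨l, hl⟩ := Option.ne_none_iff_exists'.1 hne
      obtain ⟨u, w, hu, hw, -⟩ := lb_some _ _ _ hl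
      exact ⟨(hBn _ _ hw).1, (hBn _ _ hu).2⟩
  have net_edge : ∀ a b : ℕ × ℕ, GridAdj a b → ∀ l, lb a b = some l →
      ((some a, some b, l) : GP × GP × Lab) ∈ gridNet h v ∨
        ((some b, some a, l) : GP × GP × Lab) ∈ gridNet h v := by
    intro a b hab l hl
    rcases gridAdj_cases hab with (e | e) | (e | e)
    · left; subst e
      exact mem_gridNet.2 ⟨a.1, a.2, Or.inl ⟨hl, rfl, rfl⟩⟩
    · left; subst e
      exact mem_gridNet.2 ⟨a.1, a.2, Or.inr ⟨hl, rfl, rfl⟩⟩
    · right; subst e
      rw [lb_symm] at hl
      exact mem_gridNet.2 ⟨b.1, b.2, Or.inl ⟨hl, rfl, rfl⟩⟩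
    · right; subst e
      rw [lb_symm] at hl
      exact mem_gridNet.2 ⟨b.1, b.2, Or.inr ⟨hl, rfl, rfl⟩⟩
  have net_mem : ∀ p q l, ((p, q, l) : GP × GP × Lab) ∈ gridNet h v →
      ∃ a b : ℕ × ℕ, p = some a ∧ q = some b ∧ lb a b = some l := by
    intro p q l hpq
    obtain ⟨i, j, (⟨h1, h2, h3⟩ | ⟨h1, h2, h3⟩)⟩ := mem_gridNet.1 hpq
    · exact ⟨_, _, h2, h3, h1⟩
    · exact ⟨_, _, h2, h3, h1⟩
  obtain ⟨k, ⟨U, hU1, hU2, hU3⟩, D, hD, φ, hφ⟩ := grid_good n h v hreg
  -- saturated sets contain all or nothing of a branch set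
  have allin : ∀ W : Set GP, Satu (gridNet h v) W → ∀ x, ∀ p ∈ B x, ∀ q ∈ B x,
      some p ∈ W → some q ∈ W := by
    intro W hW x p hp q hq hpW
    have := hBc x p hp q hq
    induction this with
    | refl => exact hpW
    | @tail b c hb hc ih =>
      have ihb := ih hc.1
      rcases net_edge b c hc.2.2 _ (lb_same b c x hc.1 hc.2.1) with h1 | h1
      · exact (hW _ _ h1).1 ihb
      · exact (hW _ _ h1).2 ihb
  -- the vertex sets
  let X : Fin k → Set V := fun i => {x | ∃ p ∈ B x, some p ∈ U i}
  have cyc : ∀ i : Fin k, ∃ (b : V) (c : G.Walk b b), c.IsCycle ∧ (c.edges.map σ).sum = 1 ∧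
      ∀ x ∈ c.support, x ∈ X i := by
    intro i
    let H : SimpleGraph V :=
      { Adj := fun a b => G.Adj a b ∧ a ∈ X i ∧ b ∈ X i
        symm := ⟨fun a b hab => ⟨hab.1.symm, hab.2.2, hab.2.1⟩⟩
        loopless := ⟨fun a ha => ha.1.ne rfl⟩ }
    have hle : H ≤ G := fun a b hab => hab.1
    by_contra hno
    apply hU2 i
    have hc : ∀ (w : V) (c : H.Walk w w), c.IsCycle → wsum σ c = 0 := by
      intro w c hcyc
      by_contra hne
      apply hno
      refine ⟨w, c.mapLe hle, hcyc.mapLe hle, ?_, ?_⟩
      · rw [Walk.edges_mapLe_eq_edges]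
        have : ∀ z : ZMod 2, z ≠ 0 → z = 1 := by decide
        exact this _ hne
      · intro x hx
        rw [Walk.support_mapLe_eq_support] at hx
        have aux : ∀ {a b : V} (p : H.Walk a b), a ∈ X i → ∀ x ∈ p.support, x ∈ X i := by
          intro a b p
          induction p with
          | nil => intro ha x hx; simp at hx; rw [hx]; exact ha
          | cons hab p ih =>
            intro ha x hx
            rw [Walk.support_cons, List.mem_cons] at hx
            rcases hx with rfl | hx
            · exact ha
            · exact ih hab.2.2 x hx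
        refine aux c ?_ x hx
        cases c with
        | nil => exact absurd hcyc (by simp)
        | cons hab p => exact hab.2.1
    obtain ⟨ψ, hψ⟩ := exists_potential σ H hc
    refine ⟨fun p => match p with
      | none => false
      | some p => match own p with
        | none => false
        | some x => bz (ψ x), ?_⟩
    intro p q l hpq hp hq
    obtain ⟨a, b, rfl, rfl, hl⟩ := net_mem p q l hpq
    obtain ⟨x, y, hx, hy, hxy⟩ := lb_some a b l hl
    have e1 := (own_eq a x).2 hx
    have e2 := (own_eq b y).2 hy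
    simp only [e1, e2]
    rcases hxy with ⟨rfl, rfl⟩ | ⟨hadj, rfl⟩
    · rfl
    · rw [ok_sg]
      have hH : H.Adj x y := ⟨hadj, ⟨a, hx, hp⟩, ⟨b, hy, hq⟩⟩
      rw [hψ x y hH, bz_add]
  choose b C hC1 hC2 hC3 using cyc
  refine ⟨k, b, C, fun i => ⟨hC1 i, hC2 i⟩, ?_, ?_⟩
  · intro i j hij x hx hx'
    obtain ⟨p, hp, hpU⟩ := hC3 i x hx
    obtain ⟨q, hq, hqU⟩ := hC3 j x hx'
    exact Set.disjoint_left.1 (hU3 i j hij) hpU (allin _ (hU1 j) x q hq p hp hqU)
  · -- the cover
    let S : Finset V := Finset.univ.filter (fun x => ∃ p ∈ B x, (some p : GP) ∈ D)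
    have hS : ∀ x, x ∈ S ↔ ∃ p ∈ B x, (some p : GP) ∈ D := by
      intro x
      simp [S]
    refine ⟨S, ?_, ?_⟩
    · refine le_trans ?_ hD
      have hch : ∀ x : V, ∃ p : GP, x ∈ S → p ∈ D ∧ ∃ q ∈ B x, p = some q := by
        intro x
        by_cases hx : x ∈ S
        · obtain ⟨p, hp, hpD⟩ := (hS x).1 hx
          exact ⟨some p, fun _ => ⟨hpD, p, hp, rfl⟩⟩
        · exact ⟨none, fun h => absurd h hx⟩
      choose f hf using hch
      apply Finset.card_le_card_of_injOn f
      · intro x hx
        exact (hf x hx).1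
      · intro x hx y hy hxy
        obtain ⟨-, p, hp, e1⟩ := hf x hx
        obtain ⟨-, q, hq, e2⟩ := hf y hy
        by_contra hne
        rw [e1, e2, Option.some.injEq] at hxy
        subst hxy
        exact Set.disjoint_left.1 (hBd _ _ hne) hp hq
    · intro w c hcyc hsum
      by_contra hno
      push Not at hno
      -- branch sets outside `S` are not in the closure
      have hout : ∀ x, x ∉ S → ∀ p ∈ B x, (some p : GP) ∈ (cl (gridNet h v) (D : Set GP))ᶜ := by
        intro x hx p hp hcl
        have : (some p : GP) ∈ ({r | r ∈ D ∨ ∃ y ∈ S, ∃ q ∈ B y, r = some q} ∩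
            {r | ∀ y, y ∉ S → ∀ q ∈ B y, r ≠ some q} : Set GP) := by
          apply hcl
          · intro r t hrt
            obtain ⟨a, b, rfl, rfl, hl⟩ := net_mem r t _ hrt
            obtain ⟨y, z, hy, hz, hyz⟩ := lb_some a b _ hl
            have hyz' : y = z := by
              rcases hyz with ⟨h1, -⟩ | ⟨-, h1⟩
              · exact h1
              · exact absurd h1.symm (sg_ne_inf _)
            subst hyz'
            have key : ∀ a ∈ B y, ((some a : GP) ∈ ({r | r ∈ D ∨ ∃ y ∈ S, ∃ q ∈ B y, r = some q} ∩
                {r | ∀ y, y ∉ S → ∀ q ∈ B y, r ≠ some q} : Set GP)) ↔ y ∈ S := by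
              intro a ha
              constructor
              · rintro ⟨-, h2⟩
                by_contra hyS
                exact h2 y hyS a ha rfl
              · intro hyS
                refine ⟨Or.inr ⟨y, hyS, a, ha, rfl⟩, ?_⟩
                intro z hz q hq heq
                simp only [Option.some.injEq] at heq
                subst heq
                have : y = z := by
                  by_contra hne
                  exact Set.disjoint_left.1 (hBd _ _ hne) ha hq
                exact hz (this ▸ hyS)
            rw [key a hy, key b hz]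
          · intro d hd
            refine ⟨Or.inl hd, ?_⟩
            intro y hy q hq heq
            apply hy
            rw [hS]
            exact ⟨q, hq, heq ▸ hd⟩
        exact this.2 x hx p hp rfl
      -- `φ` is constant on branch sets outside `S`
      have hconst : ∀ x, x ∉ S → ∀ p ∈ B x, ∀ q ∈ B x, φ (some p) = φ (some q) := by
        intro x hx p hp q hq
        have := hBc x p hp q hq
        induction this with
        | refl => rfl
        | @tail b c hb hc ih =>
          rw [ih hc.1]
          rcases net_edge b c hc.2.2 _ (lb_same b c x hc.1 hc.2.1) with h1 | h1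
          · exact hφ _ _ _ h1 (hout x hx b hc.1) (hout x hx c hc.2.1)
          · exact (hφ _ _ _ h1 (hout x hx c hc.2.1) (hout x hx b hc.1)).symm
      choose r hr using hBne
      have hedge : ∀ x y, G.Adj x y → x ∉ S → y ∉ S →
          zb (φ (some (r y))) = zb (φ (some (r x))) + σ s(x, y) := by
        intro x y hxy hx hy
        obtain ⟨p, hp, q, hq, hpq⟩ := hBa x y hxy
        rw [hconst x hx (r x) (hr x) p hp, hconst y hy (r y) (hr y) q hq]
        have hok : ok (sg (bz (σ s(x, y)))) (φ (some p)) (φ (some q)) := by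
          rcases net_edge p q hpq _ (lb_adj p q x y hp hq hxy) with h1 | h1
          · exact hφ _ _ _ h1 (hout x hx p hp) (hout y hy q hq)
          · exact (ok_comm _ _ _).1 (hφ _ _ _ h1 (hout y hy q hq) (hout x hx p hp))
        rw [ok_sg] at hok
        rw [hok, zb_xor, zb_bz]
      have hwalk : ∀ {a b : V} (p : G.Walk a b), (∀ x ∈ p.support, x ∉ S) →
          wsum σ p = zb (φ (some (r b))) + zb (φ (some (r a))) := by
        intro a b p
        induction p with
        | nil =>
          intro _
          rw [wsum_nil, zmod2_add_self]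
        | @cons a b c hab p ih =>
          intro hsup
          have ha : a ∉ S := hsup a (by simp)
          have hb : b ∉ S := hsup b (by simp)
          rw [wsum_cons, ih (fun x hx => hsup x (by simp [hx])), hedge a b hab ha hb]
          have e1 := zmod2_add_self (σ s(a, b))
          linear_combination e1
      have := hwalk c (fun x hx hxS => hno x hxS hx)
      rw [zmod2_add_self] at this
      unfold wsum at this
      rw [this] at hsum
      exact absurd hsum (by decide)

end Pool.Agent.Helper16.OddPack
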