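import Pool.Agent.Helper16.OddPack.Moves
import Pool.Agent.Helper16.OddPack.Potential

/-!
# Signed graphs of treewidth at most three: `τ ≤ 2 ν`
-/

set_option autoImplicit false

namespace Pool.Agent.Helper16.OddPack

open SimpleGraph

variable {P : Type}

def GoodC (c : ℕ) (N : Net P) : Prop := ∃ k, Pack N k ∧ Cov N (c * k)

theorem Sim.goodC {c : ℕ} {N' N : Net P} (h : Sim N' N) (hg : GoodC c N') : GoodC c N := by
  obtain ⟨k, hk, hc⟩ := hg
  exact ⟨k, h.1 k hk, h.2 _ hc⟩

theorem bad_eventC {c : ℕ} {N : Net P} {D0 : Finset P} (hcard : D0.card ≤ c)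
    (hb : ¬ Bal N (cl N (D0 : Set P)))
    (hg : GoodC c ({t ∈ N | t.2.2 = Lab.inf ∨
      (t.1 ∉ cl N (D0 : Set P) ∧ t.2.1 ∉ cl N (D0 : Set P))} : Net P)) : GoodC c N := by
  classical
  set C := cl N (D0 : Set P) with hC
  set N1 : Net P := {t ∈ N | t.2.2 = Lab.inf ∨ (t.1 ∉ C ∧ t.2.1 ∉ C)} with hN1
  have hsat : ∀ U, Satu N1 U ↔ Satu N U := by
    intro U
    constructor
    · intro h p q hpq
      exact h p q ⟨hpq, Or.inl rfl⟩
    · intro h p q hpq
      exact h p q hpq.1
  have hCs : Satu N C := satu_cl _ _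
  obtain ⟨k, ⟨U, h1, h2, h3⟩, D, hD, φ, hφ⟩ := hg
  refine ⟨k + 1, ⟨Fin.cons C (fun i => U i \ C), ?_, ?_, ?_⟩, D ∪ D0, ?_, φ, ?_⟩
  · intro i
    refine Fin.cases ?_ (fun i => ?_) i
    · exact hCs
    · exact satu_diff ((hsat _).1 (h1 i)) hCs
  · intro i
    refine Fin.cases ?_ (fun i => ?_) i
    · exact hb
    · rintro ⟨ψ, hψ⟩
      apply h2 i
      refine ⟨fun p => if p ∈ C then false else ψ p, ?_⟩
      intro p q l hpq hp hq
      by_cases hl : l = Lab.inf
      · subst hl
        have hpq' := hCs p q hpq.1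
        by_cases hpC : p ∈ C
        · have hqC := hpq'.1 hpC
          simp [ok, hpC, hqC]
        · have hqC : q ∉ C := fun h => hpC (hpq'.2 h)
          simp only [hpC, hqC, if_false]
          exact hψ p q _ hpq.1 ⟨hp, hpC⟩ ⟨hq, hqC⟩
      · obtain ⟨hpC, hqC⟩ := hpq.2.resolve_left hl
        simp only [] at hpC hqC
        simp only [hpC, hqC, if_false]
        exact hψ p q _ hpq.1 ⟨hp, hpC⟩ ⟨hq, hqC⟩
  · intro i j
    refine Fin.cases ?_ (fun i => ?_) i <;> refine Fin.cases ?_ (fun j => ?_) j
    · intro h; exact absurd rfl h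
    · intro _
      simp only [Fin.cons_zero, Fin.cons_succ]
      exact Set.disjoint_sdiff_right
    · intro _
      simp only [Fin.cons_zero, Fin.cons_succ]
      exact Set.disjoint_sdiff_left
    · intro hij
      simp only [Fin.cons_succ]
      exact (h3 i j (fun h => hij (by rw [h]))).mono Set.sdiff_subset Set.sdiff_subset
  · calc (D ∪ D0).card ≤ D.card + D0.card := Finset.card_union_le _ _
      _ ≤ c * k + c := Nat.add_le_add hD hcard
      _ = c * (k + 1) := by ring
  · have hsub1 : cl N1 (D : Set P) ⊆ cl N ((D ∪ D0 : Finset P) : Set P) := by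
      apply cl_min
      · exact (hsat _).2 (satu_cl _ _)
      · intro d hd
        apply subset_cl
        simp only [Finset.coe_union, Set.mem_union]
        left; exact hd
    have hsub2 : C ⊆ cl N ((D ∪ D0 : Finset P) : Set P) := by
      apply cl_min (satu_cl _ _)
      intro d hd
      apply subset_cl
      simp only [Finset.coe_union, Set.mem_union]
      right; exact hd
    intro p q l hpq hp hq
    exact hφ p q l ⟨hpq, Or.inr ⟨fun h => hp (hsub2 h), fun h => hq (hsub2 h)⟩⟩
      (fun h => hp (hsub1 h)) (fun h => hq (hsub1 h))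

def CleanC (c : ℕ) (N : Net P) : Prop :=
  ∀ D0 : Finset P, D0.card ≤ c → Bal N (cl N (D0 : Set P))

theorem good_of_cleanC (c : ℕ) [Finite P] (F : Net P → Prop)
    (hF : ∀ N N1, F N → N1 ⊆ N → F N1)
    (hclean : ∀ N, F N → CleanC c N → GoodC c N) : ∀ N, F N → GoodC c N := by
  have hfin : ∀ N : Net P, ({t ∈ N | t.2.2 ≠ Lab.inf} : Set (P × P × Lab)).Finite := by
    intro N
    have hlab : Finite Lab := by
      apply Set.finite_univ_iff.1
      apply Set.Finite.subset (Set.toFinite ({Lab.inf, Lab.pos, Lab.neg} : Set Lab))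
      intro l _
      cases l <;> simp
    exact Set.toFinite _
  suffices H : ∀ m : ℕ, ∀ N, F N → ({t ∈ N | t.2.2 ≠ Lab.inf} : Set (P × P × Lab)).ncard = m →
      GoodC c N from fun N hN => H _ N hN rfl
  intro m
  induction m using Nat.strong_induction_on with
  | _ m ih =>
    intro N hN hm
    by_cases hcl : CleanC c N
    · exact hclean N hN hcl
    · unfold CleanC at hcl
      push Not at hcl
      obtain ⟨D0, hD0, hb⟩ := hcl
      apply bad_eventC hD0 hb
      set N1 : Net P := {t ∈ N | t.2.2 = Lab.inf ∨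
        (t.1 ∉ cl N (D0 : Set P) ∧ t.2.1 ∉ cl N (D0 : Set P))} with hN1
      have hsub : N1 ⊆ N := fun t ht => ht.1
      refine ih _ ?_ N1 (hF N N1 hN hsub) rfl
      rw [← hm]
      apply Set.ncard_lt_ncard _ (hfin N)
      refine ⟨fun t ht => ⟨ht.1.1, ht.2⟩, ?_⟩
      intro hsup
      apply hb
      refine ⟨fun _ => false, ?_⟩
      intro p q l hpq hp hq
      by_cases hl : l = Lab.inf
      · subst hl; rfl
      · have := hsup (show (p, q, l) ∈ {t ∈ N | t.2.2 ≠ Lab.inf} from ⟨hpq, hl⟩)
        exact absurd hp (this.1.2.resolve_left hl).1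

/-- elimination of one vertex with at most three neighbours in a network without `inf` edges and
without unbalanced pairs -/
theorem elim_vertex [DecidableEq P] {N : Net P} (hinf : ∀ p q l, (p, q, l) ∈ N → l ≠ Lab.inf)
    (hclean : CleanC 2 N) (x a b c : P) (ha : a ≠ x) (hb : b ≠ x) (hc : c ≠ x)
    (hnb : ∀ p q l, (p, q, l) ∈ N → (p = x → q = a ∨ q = b ∨ q = c) ∧
      (q = x → p = a ∨ p = b ∨ p = c)) :
    ∃ f : P → Option Bool,
      Sim ({t ∈ N | t.1 ≠ x ∧ t.2.1 ≠ x} ∪ tri a b c (f a) (f b) (f c)) N := by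
  classical
  -- the sign of the leg to `z`
  have leg1 : ∀ z : P, ∃ α : Option Bool, (α ≠ none → ∃ l, (x, z, l) ∈ N ∨ (z, x, l) ∈ N) ∧
      (∀ l, ((x, z, l) ∈ N ∨ (z, x, l) ∈ N) → ∃ s, α = some s ∧ l = sg s) := by
    intro z
    by_cases hz : ∃ l, (x, z, l) ∈ N ∨ (z, x, l) ∈ N
    · obtain ⟨l, hl⟩ := hz
      have hl' : l ≠ Lab.inf := by
        rcases hl with hl | hl
        · exact hinf _ _ _ hl
        · exact hinf _ _ _ hl
      obtain ⟨φ, hφ⟩ := hclean {x, z} Finset.card_le_two
      have hx : x ∈ cl N (({x, z} : Finset P) : Set P) := subset_cl _ _ (by simp)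
      have hz : z ∈ cl N (({x, z} : Finset P) : Set P) := subset_cl _ _ (by simp)
      have hval : ∀ l, ((x, z, l) ∈ N ∨ (z, x, l) ∈ N) → l = sg (xor (φ x) (φ z)) := by
        intro l hl
        have hl' : l ≠ Lab.inf := by
          rcases hl with hl | hl
          · exact hinf _ _ _ hl
          · exact hinf _ _ _ hl
        have hok : ok l (φ x) (φ z) := by
          rcases hl with hl | hl
          · exact hφ _ _ _ hl hx hz
          · have := hφ _ _ _ hl hz hx
            revert this
            cases l <;> cases φ x <;> cases φ z <;> simp [ok]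
        revert hok hl'
        cases l <;> cases φ x <;> cases φ z <;> simp [ok, sg]
      exact ⟨some (xor (φ x) (φ z)), fun _ => ⟨l, hl⟩, fun l hl => ⟨_, rfl, hval l hl⟩⟩
    · exact ⟨none, fun h => absurd rfl h, fun l hl => absurd ⟨l, hl⟩ hz⟩
  choose f hf1 hf2 using leg1
  refine ⟨f, ?_⟩
  have hunt : Untouched ({t ∈ N | t.1 ≠ x ∧ t.2.1 ≠ x} : Net P) x := fun p q l h => h.2
  refine Sim.trans (sim_tri_star hunt ha.symm hb.symm hc.symm (f a) (f b) (f c)) ?_
  apply sim_of_eqv
  · intro U
    rw [satu_star]
    constructor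
    · intro h p q hpq
      exact absurd rfl (hinf p q _ hpq)
    · intro h p q hpq
      exact absurd rfl (hinf p q _ hpq.1)
  · intro U _ φ
    rw [con_union]
    unfold star
    simp only [con_union, con_leg]
    constructor
    · rintro ⟨h1, h2, h3, h4⟩ p q l hpq hp hq
      have key : ∀ z, (z = a ∨ z = b ∨ z = c) → ∀ l, ((x, z, l) ∈ N ∨ (z, x, l) ∈ N) → x ∈ U →
          z ∈ U → ok l (φ x) (φ z) := by
        rintro z (rfl | rfl | rfl) l hl hxU hzU
        · obtain ⟨s, hs, rfl⟩ := hf2 _ l hl
          exact (ok_sg _ _ _).2 (h2 s hs hxU hzU)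
        · obtain ⟨s, hs, rfl⟩ := hf2 _ l hl
          exact (ok_sg _ _ _).2 (h3 s hs hxU hzU)
        · obtain ⟨s, hs, rfl⟩ := hf2 _ l hl
          exact (ok_sg _ _ _).2 (h4 s hs hxU hzU)
      by_cases hpx : p = x
      · subst hpx
        exact key q ((hnb p q l hpq).1 rfl) l (Or.inl hpq) hp hq
      · by_cases hqx : q = x
        · subst hqx
          have := key p ((hnb p q l hpq).2 rfl) l (Or.inr hpq) hq hp
          revert this
          cases l <;> cases φ q <;> cases φ p <;> simp [ok]
        · exact h1 p q l ⟨hpq, hpx, hqx⟩ hp hq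
    · intro h
      have key : ∀ z (α : Option Bool), (α ≠ none → ∃ l, (x, z, l) ∈ N ∨ (z, x, l) ∈ N) →
          (∀ l, ((x, z, l) ∈ N ∨ (z, x, l) ∈ N) → ∃ s, α = some s ∧ l = sg s) →
          ∀ s, α = some s → x ∈ U → z ∈ U → φ z = xor (φ x) s := by
        intro z α h1 h2 s hs hx hz
        obtain ⟨l, hl⟩ := h1 (by rw [hs]; simp)
        obtain ⟨s', hs', rfl⟩ := h2 l hl
        have : s' = s := by
          rw [hs] at hs'
          simpa using hs'.symm
        subst this
        rw [← ok_sg]
        rcases hl with hl | hl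
        · exact h _ _ _ hl hx hz
        · have := h _ _ _ hl hz hx
          revert this
          cases s' <;> cases φ x <;> cases φ z <;> simp [ok, sg]
      exact ⟨fun p q l hpq hp hq => h p q l hpq.1 hp hq, key a _ (hf1 a) (hf2 a),
        key b _ (hf1 b) (hf2 b), key c _ (hf1 c) (hf2 c)⟩

/-- `H` with the injective ranking `r` is chordal with at most three later neighbours: every graph
`G ≤ H` has treewidth at most three. -/
def Elim3 {V : Type} (G : SimpleGraph V) : Prop :=
  ∃ (H : SimpleGraph V) (r : V → ℕ), Function.Injective r ∧ G ≤ H ∧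
    (∀ v, {w | H.Adj v w ∧ r v < r w}.ncard ≤ 3) ∧
    (∀ v w w', H.Adj v w → H.Adj v w' → r v < r w → r v < r w' → w ≠ w' → H.Adj w w')

/-- three elements listing a set of at most three -/
theorem exists_three {V : Type} [Finite V] (S : Set V) (hS : S.ncard ≤ 3) (hne : S.Nonempty) :
    ∃ a b c, a ∈ S ∧ b ∈ S ∧ c ∈ S ∧ ∀ z ∈ S, z = a ∨ z = b ∨ z = c := by
  classical
  have hfin : S.Finite := Set.toFinite S
  obtain ⟨a, ha⟩ := hne
  by_cases h1 : ∃ b ∈ S, b ≠ a
  · obtain ⟨b, hb, hba⟩ := h1
    by_cases h2 : ∃ c ∈ S, c ≠ a ∧ c ≠ b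
    · obtain ⟨c, hc, hca, hcb⟩ := h2
      refine ⟨a, b, c, ha, hb, hc, ?_⟩
      intro z hz
      by_contra hno
      push Not at hno
      obtain ⟨h3, h4, h5⟩ := hno
      have hsub : (({a, b, c, z} : Finset V) : Set V) ⊆ S := by
        intro w hw
        simp only [Finset.coe_insert, Finset.coe_singleton, Set.mem_insert_iff,
          Set.mem_singleton_iff] at hw
        rcases hw with rfl | rfl | rfl | rfl <;> assumption
      have hcard : ({a, b, c, z} : Finset V).card = 4 := by
        rw [Finset.card_insert_of_notMem, Finset.card_insert_of_notMem,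
          Finset.card_insert_of_notMem, Finset.card_singleton]
        · simp only [Finset.mem_singleton]
          exact fun h => h5 h.symm
        · simp only [Finset.mem_insert, Finset.mem_singleton, not_or]
          exact ⟨fun h => hcb h.symm, fun h => h4 h.symm⟩
        · simp only [Finset.mem_insert, Finset.mem_singleton, not_or]
          exact ⟨fun h => hba h.symm, fun h => hca h.symm, fun h => h3 h.symm⟩
      have := Set.ncard_le_ncard hsub hfin
      rw [Set.ncard_coe_finset, hcard] at this
      omega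
    · push Not at h2
      refine ⟨a, b, b, ha, hb, hb, ?_⟩
      intro z hz
      by_cases hza : z = a
      · left; exact hza
      · right; left; exact h2 z hz hza
  · push Not at h1
    exact ⟨a, a, a, ha, ha, ha, fun z hz => Or.inl (h1 z hz)⟩

theorem tw_good {V : Type} [Finite V] (H : SimpleGraph V) (r : V → ℕ) (hr : Function.Injective r)
    (h3 : ∀ v, {w | H.Adj v w ∧ r v < r w}.ncard ≤ 3)
    (hch : ∀ v w w', H.Adj v w → H.Adj v w' → r v < r w → r v < r w' → w ≠ w' → H.Adj w w') :
    ∀ N : Net V, (∀ p q l, (p, q, l) ∈ N → l ≠ Lab.inf ∧ (p ≠ q → H.Adj p q) ∧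
      (p = q → l = Lab.pos)) → GoodC 2 N := by
  classical
  obtain ⟨m, hm⟩ : ∃ m, ∀ v, r v < m := by
    obtain ⟨m, hm⟩ := (Set.finite_range r).bddAbove
    exact ⟨m + 1, fun v => Nat.lt_succ_of_le (hm ⟨v, rfl⟩)⟩
  suffices H' : ∀ f t, t + f = m → ∀ N : Net V, (∀ p q l, (p, q, l) ∈ N → l ≠ Lab.inf ∧
      (p ≠ q → H.Adj p q) ∧ (p = q → l = Lab.pos) ∧ t ≤ r p ∧ t ≤ r q) → GoodC 2 N by
    intro N hN
    exact H' m 0 (by omega) N fun p q l h =>
      ⟨(hN p q l h).1, (hN p q l h).2.1, (hN p q l h).2.2, Nat.zero_le _, Nat.zero_le _⟩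
  intro f
  induction f with
  | zero =>
    intro t ht N hN
    refine ⟨0, ⟨fun _ => ∅, fun i => i.elim0, fun i => i.elim0, fun i => i.elim0⟩, ∅, by simp,
      fun _ => false, ?_⟩
    intro p q l h
    have := (hN p q l h).2.2.2.1
    have := hm p
    omega
  | succ f ih =>
    intro t ht
    apply good_of_cleanC 2 (fun N => ∀ p q l, (p, q, l) ∈ N → l ≠ Lab.inf ∧
      (p ≠ q → H.Adj p q) ∧ (p = q → l = Lab.pos) ∧ t ≤ r p ∧ t ≤ r q)
    · intro N N1 hN hsub p q l h
      exact hN p q l (hsub h)
    · intro N hN hclean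
      by_cases hx : ∃ x, r x = t
      swap
      · apply ih (t + 1) (by omega) N
        intro p q l h
        obtain ⟨h1, h2, h4, h5, h6⟩ := hN p q l h
        refine ⟨h1, h2, h4, ?_, ?_⟩
        · exact lt_of_le_of_ne h5 (fun h => hx ⟨p, h.symm⟩)
        · exact lt_of_le_of_ne h6 (fun h => hx ⟨q, h.symm⟩)
      obtain ⟨x, hxt⟩ := hx
      -- remove positive loops at `x` first
      let N' : Net V := {e ∈ N | e.1 ≠ e.2.1}
      have hNN' : Sim N' N := by
        apply sim_of_eqv
        · intro U
          constructor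
          · intro h p q hpq
            exact absurd rfl (hN p q _ hpq).1
          · intro h p q hpq
            exact absurd rfl (hN p q _ hpq.1).1
        · intro U _ φ
          constructor
          · intro h p q l hpq hp hq
            by_cases hpq' : p = q
            · subst hpq'
              rw [(hN p p l hpq).2.2.1 rfl]
              rfl
            · exact h p q l ⟨hpq, hpq'⟩ hp hq
          · intro h p q l hpq hp hq
            exact h p q l hpq.1 hp hq
      apply hNN'.goodC
      have hN' : ∀ p q l, (p, q, l) ∈ N' → l ≠ Lab.inf ∧ H.Adj p q ∧ t ≤ r p ∧ t ≤ r q := by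
        intro p q l h
        obtain ⟨h1, h2, -, h5, h6⟩ := hN p q l h.1
        exact ⟨h1, h2 h.2, h5, h6⟩
      have hclean' : CleanC 2 N' := by
        intro D0 hD0
        obtain ⟨φ, hφ⟩ := hclean D0 hD0
        refine ⟨φ, fun p q l h hp hq => hφ p q l h.1 ?_ ?_⟩
        · intro V hV hD
          exact hp V (satu_mono (fun e he => he.1) hV) hD
        · intro V hV hD
          exact hq V (satu_mono (fun e he => he.1) hV) hD
      have hlater : ∀ z, z ≠ x → H.Adj x z → t ≤ r z → r x < r z := by
        intro z hz _ htz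
        rw [hxt]
        refine lt_of_le_of_ne htz (fun h => hz ?_)
        apply hr
        rw [hxt, h]
      by_cases hS : {w | H.Adj x w ∧ r x < r w}.Nonempty
      · obtain ⟨a, b, c, ha, hb, hc, habc⟩ := exists_three _ (h3 x) hS
        obtain ⟨f, hsim⟩ := elim_vertex (fun p q l h => (hN' p q l h).1) hclean'
          x a b c ha.1.ne' hb.1.ne' hc.1.ne' (by
            intro p q l h
            obtain ⟨-, hadj, hp, hq⟩ := hN' p q l h
            constructor
            · rintro rfl
              exact habc q ⟨hadj, hlater q hadj.ne' hadj hq⟩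
            · rintro rfl
              exact habc p ⟨hadj.symm, hlater p hadj.ne hadj.symm hp⟩)
        apply hsim.goodC
        apply ih (t + 1) (by omega)
        intro p q l h
        rcases h with h | h
        · obtain ⟨h4, h5, h6⟩ := h
          obtain ⟨g1, g2, g3, g4⟩ := hN' p q l h4
          refine ⟨g1, fun _ => g2, fun e => absurd e g2.ne, ?_, ?_⟩
          · refine lt_of_le_of_ne g3 (fun e => h5 (hr ?_))
            show r p = r x
            omega
          · refine lt_of_le_of_ne g4 (fun e => h6 (hr ?_))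
            show r q = r x
            omega
        · have hrlt : ∀ z, z ∈ {w | H.Adj x w ∧ r x < r w} → t + 1 ≤ r z := by
            intro z hz
            have := hz.2
            omega
          have main : ∀ (y z : V), y ∈ {w | H.Adj x w ∧ r x < r w} →
              z ∈ {w | H.Adj x w ∧ r x < r w} →
              (p, q, l) ∈ leg y z (mul (f y) (f z)) → l ≠ Lab.inf ∧ (p ≠ q → H.Adj p q) ∧
              (p = q → l = Lab.pos) ∧ t + 1 ≤ r p ∧ t + 1 ≤ r q := by
            intro y z hy hz hmem
            unfold leg at hmem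
            obtain ⟨h4, rfl, rfl⟩ := mem_lab.1 hmem
            rcases hu : f p with - | u
            · rw [hu] at h4
              simp [mul] at h4
            rcases hv : f q with - | v
            · rw [hu, hv] at h4
              simp [mul] at h4
            rw [hu, hv] at h4
            simp only [mul, Option.map_some, Option.some.injEq] at h4
            refine ⟨by rw [← h4]; exact sg_ne_inf _, ?_, ?_, hrlt _ hy, hrlt _ hz⟩
            · intro hne
              exact hch x p q hy.1 hz.1 hy.2 hz.2 hne
            · intro e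
              subst e
              rw [hu] at hv
              simp only [Option.some.injEq] at hv
              rw [← h4, hv]
              simp [sg]
          unfold tri at h
          rcases h with h | h | h
          · exact main a b ha hb h
          · exact main b c hb hc h
          · exact main a c ha hc h
      · -- no later neighbours
        apply ih (t + 1) (by omega)
        intro p q l h
        obtain ⟨g1, g2, g3, g4⟩ := hN' p q l h
        refine ⟨g1, fun _ => g2, fun e => absurd e g2.ne, ?_, ?_⟩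
        · refine lt_of_le_of_ne g3 (fun e => ?_)
          have hpx : p = x := hr (by omega)
          subst hpx
          exact hS ⟨q, g2, hlater q g2.ne' g2 g4⟩
        · refine lt_of_le_of_ne g4 (fun e => ?_)
          have hqx : q = x := hr (by omega)
          subst hqx
          exact hS ⟨p, g2.symm, hlater p g2.ne g2.symm g3⟩

end Pool.Agent.Helper16.OddPack
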