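import Pool.Agent.Helper16.OddPack.Tw

/-!
# From networks on the vertex set to negative cycles
-/

set_option autoImplicit false

namespace Pool.Agent.Helper16.OddPack

open SimpleGraph

def zb2 (b : Bool) : ZMod 2 := if b then 1 else 0

def bz2 (z : ZMod 2) : Bool := decide (z = 1)

theorem zb2_bz2 (z : ZMod 2) : zb2 (bz2 z) = z := by
  fin_cases z <;> rfl

theorem zb2_xor (a b : Bool) : zb2 (xor a b) = zb2 a + zb2 b := by
  cases a <;> cases b <;> decide

theorem bz2_add (a b : ZMod 2) : bz2 (a + b) = xor (bz2 a) (bz2 b) := by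
  fin_cases a <;> fin_cases b <;> rfl

def gnet {V : Type} (G : SimpleGraph V) (σ : Sym2 V → ZMod 2) : Net V :=
  {t | G.Adj t.1 t.2.1 ∧ t.2.2 = sg (bz2 (σ s(t.1, t.2.1)))}

theorem satu_gnet {V : Type} (G : SimpleGraph V) (σ : Sym2 V → ZMod 2) (U : Set V) :
    Satu (gnet G σ) U := by
  intro p q h
  exact absurd h.2.symm (sg_ne_inf _)

theorem cl_gnet {V : Type} (G : SimpleGraph V) (σ : Sym2 V → ZMod 2) (U : Set V) :
    cl (gnet G σ) U = U :=
  Set.Subset.antisymm (cl_min (satu_gnet G σ U) (Set.Subset.refl _)) (subset_cl _ _)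

theorem negCycle_of_goodC {V : Type} (G : SimpleGraph V) (σ : Sym2 V → ZMod 2) (c : ℕ)
    (hg : GoodC c (gnet G σ)) :
    ∃ (k : ℕ) (b : Fin k → V) (C : ∀ i : Fin k, G.Walk (b i) (b i)),
        (∀ i : Fin k, (C i).IsCycle ∧ ((C i).edges.map σ).sum = 1) ∧
        (∀ i j : Fin k, i ≠ j → ∀ x ∈ (C i).support, x ∉ (C j).support) ∧
        ∃ S : Finset V, S.card ≤ c * k ∧
          ∀ (v : V) (c : G.Walk v v), c.IsCycle → (c.edges.map σ).sum = 1 →
            ∃ x ∈ S, x ∈ c.support := by
  classical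
  obtain ⟨k, ⟨U, -, hU2, hU3⟩, D, hD, φ, hφ⟩ := hg
  have cyc : ∀ i : Fin k, ∃ (b : V) (c : G.Walk b b), c.IsCycle ∧ (c.edges.map σ).sum = 1 ∧
      ∀ x ∈ c.support, x ∈ U i := by
    intro i
    let H : SimpleGraph V :=
      { Adj := fun a b => G.Adj a b ∧ a ∈ U i ∧ b ∈ U i
        symm := ⟨fun a b hab => ⟨hab.1.symm, hab.2.2, hab.2.1⟩⟩
        loopless := ⟨fun a ha => ha.1.ne rfl⟩ }
    have hle : H ≤ G := fun a b hab => hab.1
    by_contra hno
    apply hU2 i
    have hc : ∀ (w : V) (c : H.Walk w w), c.IsCycle → wsum σ c = 0 := by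
      intro w c hcyc
      by_contra hne
      apply hno
      refine ⟨w, c.mapLe hle, hcyc.mapLe hle, ?_, ?_⟩
      · rw [Walk.edges_mapLe_eq_edges]
        have : ∀ z : ZMod 2, z ≠ 0 → z = 1 := by decide
        exact this _ hne
      · intro x hx
        rw [Walk.support_mapLe_eq_support] at hx
        have aux : ∀ {a b : V} (p : H.Walk a b), a ∈ U i → ∀ x ∈ p.support, x ∈ U i := by
          intro a b p
          induction p with
          | nil => intro ha x hx; simp at hx; rw [hx]; exact ha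
          | cons hab p ih =>
            intro ha x hx
            rw [Walk.support_cons, List.mem_cons] at hx
            rcases hx with rfl | hx
            · exact ha
            · exact ih hab.2.2 x hx
        refine aux c ?_ x hx
        cases c with
        | nil => exact absurd hcyc (by simp)
        | cons hab p => exact hab.2.1
    obtain ⟨ψ, hψ⟩ := exists_potential σ H hc
    refine ⟨fun p => bz2 (ψ p), ?_⟩
    rintro p q l ⟨hadj, hl⟩ hp hq
    simp only [] at hadj hl
    rw [hl, ok_sg]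
    beta_reduce
    rw [hψ p q ⟨hadj, hp, hq⟩, bz2_add]
  choose b C hC1 hC2 hC3 using cyc
  refine ⟨k, b, C, fun i => ⟨hC1 i, hC2 i⟩, ?_, ?_⟩
  · intro i j hij x hx hx'
    exact Set.disjoint_left.1 (hU3 i j hij) (hC3 i x hx) (hC3 j x hx')
  · refine ⟨D, hD, ?_⟩
    intro w c hcyc hsum
    by_contra hno
    push Not at hno
    rw [cl_gnet] at hφ
    have hedge : ∀ x y, G.Adj x y → x ∉ D → y ∉ D →
        zb2 (φ y) = zb2 (φ x) + σ s(x, y) := by
      intro x y hxy hx hy
      have hok := hφ x y (sg (bz2 (σ s(x, y)))) ⟨hxy, rfl⟩ (by simpa using hx) (by simpa using hy)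
      rw [ok_sg] at hok
      rw [hok, zb2_xor, zb2_bz2]
    have hwalk : ∀ {a b : V} (p : G.Walk a b), (∀ x ∈ p.support, x ∉ D) →
        wsum σ p = zb2 (φ b) + zb2 (φ a) := by
      intro a b p
      induction p with
      | nil =>
        intro _
        rw [wsum_nil, zmod2_add_self]
      | @cons a b c hab p ih =>
        intro hsup
        have ha : a ∉ D := hsup a (by simp)
        have hb : b ∉ D := hsup b (by simp)
        rw [wsum_cons, ih (fun x hx => hsup x (by simp [hx])), hedge a b hab ha hb]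
        have e1 := zmod2_add_self (σ s(a, b))
        linear_combination e1
    have := hwalk c (fun x hx hxS => hno x hxS hx)
    rw [zmod2_add_self] at this
    unfold wsum at this
    rw [this] at hsum
    exact absurd hsum (by decide)

theorem negCycle_tw3 {V : Type} [Finite V] (G H : SimpleGraph V) (σ : Sym2 V → ZMod 2)
    (r : V → ℕ) (hr : Function.Injective r) (hGH : G ≤ H)
    (h3 : ∀ v, {w | H.Adj v w ∧ r v < r w}.ncard ≤ 3)
    (hch : ∀ v w w', H.Adj v w → H.Adj v w' → r v < r w → r v < r w' → w ≠ w' → H.Adj w w') :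
    ∃ (k : ℕ) (b : Fin k → V) (C : ∀ i : Fin k, G.Walk (b i) (b i)),
        (∀ i : Fin k, (C i).IsCycle ∧ ((C i).edges.map σ).sum = 1) ∧
        (∀ i j : Fin k, i ≠ j → ∀ x ∈ (C i).support, x ∉ (C j).support) ∧
        ∃ S : Finset V, S.card ≤ 2 * k ∧
          ∀ (v : V) (c : G.Walk v v), c.IsCycle → (c.edges.map σ).sum = 1 →
            ∃ x ∈ S, x ∈ c.support := by
  apply negCycle_of_goodC G σ 2
  apply tw_good H r hr h3 hch
  rintro p q l ⟨hadj, hl⟩
  simp only [] at hadj hl
  exact ⟨by rw [hl]; exact sg_ne_inf _, fun _ => hGH hadj, fun e => absurd e hadj.ne⟩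

end Pool.Agent.Helper16.OddPack
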